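import Mathlib

/-!
# Analysis of the condition (J)
-/

namespace Pool.Agent.R165.Spec

open Set

/-- The hypotheses of the question: functions `(0,1] → [0,d]` with condition (J), `φA` being
`d`-Lipschitz with `φA 1 = 0`. -/
structure CondJ (d : ℕ) (φL φA : ℝ → ℝ) : Prop where
  rangeL : ∀ θ ∈ Ioc (0 : ℝ) 1, φL θ ∈ Icc (0 : ℝ) d
  rangeA : ∀ θ ∈ Ioc (0 : ℝ) 1, φA θ ∈ Icc (0 : ℝ) d
  J : ∀ l ∈ Ioc (0 : ℝ) 1, ∀ θ ∈ Ioc (0 : ℝ) 1,
    (φL θ ≤ φL (l * θ) - θ * φL l ∧ φL (l * θ) - θ * φL l ≤ φA θ) ∧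
    (θ * φL l ≤ φA (l * θ) - φA θ ∧ φA (l * θ) - φA θ ≤ θ * φA l)
  lip : ∀ θ ∈ Ioc (0 : ℝ) 1, ∀ θ' ∈ Ioc (0 : ℝ) 1, |φA θ - φA θ'| ≤ d * |θ - θ'|
  A1 : φA 1 = 0

variable {d : ℕ} {φL φA : ℝ → ℝ}

theorem one_mem : (1 : ℝ) ∈ Ioc (0 : ℝ) 1 := ⟨one_pos, le_rfl⟩

theorem mul_mem' {a b : ℝ} (ha : a ∈ Ioc (0 : ℝ) 1) (hb : b ∈ Ioc (0 : ℝ) 1) :
    a * b ∈ Ioc (0 : ℝ) 1 :=
  ⟨mul_pos ha.1 hb.1, mul_le_one₀ ha.2 hb.1.le hb.2⟩

theorem pow_mem' {a : ℝ} (ha : a ∈ Ioc (0 : ℝ) 1) (n : ℕ) : a ^ n ∈ Ioc (0 : ℝ) 1 :=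
  ⟨pow_pos ha.1 n, pow_le_one₀ ha.1.le ha.2⟩

theorem div_mem' {a b : ℝ} (ha : 0 < a) (hab : a ≤ b) : a / b ∈ Ioc (0 : ℝ) 1 :=
  ⟨div_pos ha (ha.trans_le hab), (div_le_one (ha.trans_le hab)).mpr hab⟩

namespace CondJ

variable (h : CondJ d φL φA)
include h

theorem L1 : φL 1 = 0 := by
  have h1 := (h.J 1 one_mem 1 one_mem).1.1
  rw [one_mul, one_mul, sub_self] at h1
  exact le_antisymm h1 (h.rangeL 1 one_mem).1

theorem LleA {θ : ℝ} (hθ : θ ∈ Ioc (0 : ℝ) 1) : φL θ ≤ φA θ :=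
  (h.J 1 one_mem θ hθ).1.1.trans (h.J 1 one_mem θ hθ).1.2

theorem antiA {θ θ' : ℝ} (hθ : θ ∈ Ioc (0 : ℝ) 1) (hθ' : θ' ∈ Ioc (0 : ℝ) 1) (hle : θ ≤ θ') :
    φA θ' ≤ φA θ := by
  have h1 := (h.J (θ / θ') (div_mem' hθ.1 hle) θ' hθ').2.1
  rw [div_mul_cancel₀ _ hθ'.1.ne'] at h1
  have h2 := mul_nonneg hθ'.1.le (h.rangeL _ (div_mem' hθ.1 hle)).1
  linarith

theorem A_le {θ : ℝ} (hθ : θ ∈ Ioc (0 : ℝ) 1) : φA θ ≤ d * (1 - θ) := by
  have h1 := h.lip θ hθ 1 one_mem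
  rw [h.A1, sub_zero, abs_of_nonneg (h.rangeA θ hθ).1, abs_of_nonpos (by linarith [hθ.2])] at h1
  linarith

/-- Continuity of `φL`. -/
theorem eL {θ θ' : ℝ} (hθ : θ ∈ Ioc (0 : ℝ) 1) (hθ' : θ' ∈ Ioc (0 : ℝ) 1) (hle : θ ≤ θ') :
    φL θ ≤ φL θ' + d * ((θ' - θ) / θ') := by
  have hq := div_mem' hθ.1 hle
  have h1 := (h.J θ' hθ' (θ / θ') hq).1.2
  rw [mul_div_cancel₀ _ hθ'.1.ne'] at h1
  have h2 := h.A_le hq
  have h3 := (h.rangeL θ' hθ').1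
  have h4 : θ / θ' * φL θ' ≤ φL θ' := mul_le_of_le_one_left h3 hq.2
  have h5 : (θ' - θ) / θ' = 1 - θ / θ' := by
    have := hθ'.1.ne'
    field_simp
  rw [h5]
  linarith

theorem sumL {θ : ℝ} (hθ : θ ∈ Ioc (0 : ℝ) 1) (n : ℕ) :
    φL θ * ∑ j ∈ Finset.range (n + 1), θ ^ j ≤ φL (θ ^ (n + 1)) := by
  induction n with
  | zero => simp
  | succ n ih =>
    have h1 := (h.J (θ ^ (n + 1)) (pow_mem' hθ _) θ hθ).1.1
    rw [← pow_succ] at h1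
    have h2 := mul_le_mul_of_nonneg_left ih hθ.1.le
    rw [Finset.sum_range_succ']
    have h3 : ∑ k ∈ Finset.range (n + 1), θ ^ (k + 1) = θ * ∑ j ∈ Finset.range (n + 1), θ ^ j := by
      rw [Finset.mul_sum]
      refine Finset.sum_congr rfl fun k _ => ?_
      rw [pow_succ']
    rw [h3, pow_zero]
    linarith

theorem sumA {θ : ℝ} (hθ : θ ∈ Ioc (0 : ℝ) 1) (n : ℕ) :
    φA (θ ^ (n + 1)) ≤ φA θ * ∑ j ∈ Finset.range (n + 1), θ ^ j := by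
  induction n with
  | zero => simp
  | succ n ih =>
    have h1 := (h.J (θ ^ (n + 1)) (pow_mem' hθ _) θ hθ).2.2
    rw [← pow_succ] at h1
    have h2 := mul_le_mul_of_nonneg_left ih hθ.1.le
    rw [Finset.sum_range_succ']
    have h3 : ∑ k ∈ Finset.range (n + 1), θ ^ (k + 1) = θ * ∑ j ∈ Finset.range (n + 1), θ ^ j := by
      rw [Finset.mul_sum]
      refine Finset.sum_congr rfl fun k _ => ?_
      rw [pow_succ']
    rw [h3, pow_zero]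
    linarith

theorem cross {l θ : ℝ} (hl : l ∈ Ioc (0 : ℝ) 1) (hθ : θ ∈ Ioc (0 : ℝ) 1) :
    (1 - l) * φL θ ≤ (1 - θ) * φA l := by
  rcases hl.2.lt_or_eq with hl1 | rfl
  swap
  · rw [h.A1]
    simp
  rcases hθ.2.lt_or_eq with hθ1 | rfl
  swap
  · rw [h.L1]
    simp
  -- `φL θ * ∑_{j < n} θ^j ≤ φA l / (1 - l)` for all `n`
  have key : ∀ n : ℕ, φL θ * ∑ j ∈ Finset.range (n + 1), θ ^ j ≤ φA l * (1 - l)⁻¹ := by
    intro n
    obtain ⟨m, hm⟩ := exists_pow_lt_of_lt_one (pow_pos hθ.1 (n + 1)) hl1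
    have hm' : l ^ (m + 1) ≤ θ ^ (n + 1) :=
      (pow_le_pow_of_le_one hl.1.le hl.2 (Nat.le_succ m)).trans hm.le
    have h1 := h.sumL hθ n
    have h2 := h.LleA (pow_mem' hθ (n + 1))
    have h3 := h.antiA (pow_mem' hl (m + 1)) (pow_mem' hθ (n + 1)) hm'
    have h4 := h.sumA hl m
    have h5 : ∑ j ∈ Finset.range (m + 1), l ^ j ≤ (1 - l)⁻¹ := by
      rw [geom_sum_eq hl1.ne, ← neg_div_neg_eq, neg_sub, neg_sub, div_eq_mul_inv]
      refine mul_le_of_le_one_left (inv_nonneg.mpr (by linarith)) ?_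
      have := pow_pos hl.1 (m + 1)
      linarith
    have h6 := mul_le_mul_of_nonneg_left h5 (h.rangeA l hl).1
    linarith
  have hlim : Filter.Tendsto (fun n : ℕ => φL θ * ∑ j ∈ Finset.range (n + 1), θ ^ j)
      Filter.atTop (nhds (φL θ * (1 - θ)⁻¹)) := by
    refine Filter.Tendsto.const_mul _ ?_
    exact ((hasSum_geometric_of_lt_one hθ.1.le hθ1).tendsto_sum_nat).comp
      (Filter.tendsto_add_atTop_nat 1)
  have h7 := le_of_tendsto' hlim key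
  have h8 : 0 < 1 - l := by linarith
  have h9 : 0 < 1 - θ := by linarith
  rw [← div_eq_mul_inv, ← div_eq_mul_inv, div_le_div_iff₀ h9 h8] at h7
  linarith

end CondJ

/-- The functions used for the blocks. -/
structure Good (φL φA φ : ℝ → ℝ) : Prop where
  lower : ∀ l ∈ Ioc (0 : ℝ) 1, ∀ θ ∈ Ioc (0 : ℝ) 1, φL θ ≤ φ (l * θ) - θ * φ l
  upper : ∀ l ∈ Ioc (0 : ℝ) 1, ∀ θ ∈ Ioc (0 : ℝ) 1, φ (l * θ) - θ * φ l ≤ φA θ
  one : φ 1 = 0

theorem goodL (h : CondJ d φL φA) : Good φL φA φL :=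
  ⟨fun l hl θ hθ => (h.J l hl θ hθ).1.1, fun l hl θ hθ => (h.J l hl θ hθ).1.2, h.L1⟩

theorem goodA (h : CondJ d φL φA) : Good φL φA φA := by
  refine ⟨fun l hl θ hθ => ?_, fun l hl θ hθ => ?_, h.A1⟩
  · have h1 := (h.J θ hθ l hl).2.1
    rw [mul_comm θ l] at h1
    have h2 := h.cross hl hθ
    linarith
  · have h1 := (h.J θ hθ l hl).2.2
    have h2 := (h.J l hl θ hθ).2.2
    linarith

/-- The profile. -/
noncomputable def G (φ : ℝ → ℝ) (n u : ℝ) : ℝ := u * φ (n / u)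

theorem G_diff {φ : ℝ → ℝ} (hφ : Good φL φA φ) {n s t : ℝ} (hn : 0 < n) (hs : n ≤ s)
    (ht : s ≤ t) : t * φL (s / t) ≤ G φ n t - G φ n s ∧ G φ n t - G φ n s ≤ t * φA (s / t) := by
  have hs0 : 0 < s := hn.trans_le hs
  have ht0 : 0 < t := hs0.trans_le ht
  have h1 := hφ.lower (n / s) (div_mem' hn hs) (s / t) (div_mem' hs0 ht)
  have h2 := hφ.upper (n / s) (div_mem' hn hs) (s / t) (div_mem' hs0 ht)
  have h3 : n / s * (s / t) = n / t := by field_simp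
  rw [h3] at h1 h2
  have h4 : G φ n t - G φ n s = t * (φ (n / t) - s / t * φ (n / s)) := by
    unfold G
    field_simp
  rw [h4]
  exact ⟨mul_le_mul_of_nonneg_left h1 ht0.le, mul_le_mul_of_nonneg_left h2 ht0.le⟩

theorem G_self {φ : ℝ → ℝ} (hφ : Good φL φA φ) {n : ℝ} (hn : 0 < n) : G φ n n = 0 := by
  unfold G
  rw [div_self hn.ne', hφ.one, mul_zero]

theorem G_mono (h : CondJ d φL φA) {φ : ℝ → ℝ} (hφ : Good φL φA φ) {n s t : ℝ} (hn : 0 < n)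
    (hs : n ≤ s) (ht : s ≤ t) : G φ n s ≤ G φ n t := by
  have h1 := (G_diff hφ hn hs ht).1
  have hs0 : 0 < s := hn.trans_le hs
  have h2 := mul_nonneg (hs0.trans_le ht).le (h.rangeL (s / t) (div_mem' hs0 ht)).1
  linarith

theorem G_lip (h : CondJ d φL φA) {φ : ℝ → ℝ} (hφ : Good φL φA φ) {n s t : ℝ} (hn : 0 < n)
    (hs : n ≤ s) (ht : s ≤ t) : G φ n t ≤ G φ n s + d * (t - s) := by
  have h1 := (G_diff hφ hn hs ht).2
  have hs0 : 0 < s := hn.trans_le hs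
  have ht0 : 0 < t := hs0.trans_le ht
  have h2 := mul_le_mul_of_nonneg_left (h.A_le (div_mem' hs0 ht)) ht0.le
  have h3 : t * (d * (1 - s / t)) = d * (t - s) := by field_simp
  linarith

theorem G_nonneg (h : CondJ d φL φA) {φ : ℝ → ℝ} (hφ : Good φL φA φ) {n t : ℝ} (hn : 0 < n)
    (ht : n ≤ t) : 0 ≤ G φ n t := by
  have h1 := G_mono h hφ hn le_rfl ht
  rwa [G_self hφ hn] at h1

/-- `G ≤ t * φA (n / t)`. -/
theorem G_le {φ : ℝ → ℝ} (hφ : Good φL φA φ) {n t : ℝ} (hn : 0 < n) (ht : n ≤ t) :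
    G φ n t ≤ t * φA (n / t) := by
  have h1 := (G_diff hφ hn le_rfl ht).2
  rwa [G_self hφ hn, sub_zero] at h1

/-- `t * φL (n / t) ≤ G`. -/
theorem le_G {φ : ℝ → ℝ} (hφ : Good φL φA φ) {n t : ℝ} (hn : 0 < n) (ht : n ≤ t) :
    t * φL (n / t) ≤ G φ n t := by
  have h1 := (G_diff hφ hn le_rfl ht).1
  rwa [G_self hφ hn, sub_zero] at h1

/-- The function of block `n`. -/
noncomputable def fn (φL φA : ℝ → ℝ) (n : ℕ) : ℝ → ℝ := if Even n then φA else φL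

theorem fn_good (h : CondJ d φL φA) (n : ℕ) : Good φL φA (fn φL φA n) := by
  unfold fn
  split_ifs
  · exact goodA h
  · exact goodL h

/-- The integer profile. -/
noncomputable def gN (φL φA : ℝ → ℝ) (n k : ℕ) : ℕ := ⌊G (fn φL φA n) n k⌋₊

theorem gN_le (h : CondJ d φL φA) {n k : ℕ} (hn : 0 < n) (hk : n ≤ k) :
    (gN φL φA n k : ℝ) ≤ G (fn φL φA n) n k :=
  Nat.floor_le (G_nonneg h (fn_good h n) (by exact_mod_cast hn) (by exact_mod_cast hk))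

theorem lt_gN (n k : ℕ) : G (fn φL φA n) n k < gN φL φA n k + 1 := Nat.lt_floor_add_one _

theorem gN_mono (h : CondJ d φL φA) {n s t : ℕ} (hn : 0 < n) (hs : n ≤ s) (ht : s ≤ t) :
    gN φL φA n s ≤ gN φL φA n t :=
  Nat.floor_le_floor (G_mono h (fn_good h n) (by exact_mod_cast hn) (by exact_mod_cast hs)
    (by exact_mod_cast ht))

theorem gN_succ (h : CondJ d φL φA) {n k : ℕ} (hn : 0 < n) (hk : n ≤ k) :
    gN φL φA n (k + 1) ≤ gN φL φA n k + d := by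
  have h1 := G_lip h (fn_good h n) (n := n) (s := k) (t := (k + 1 : ℕ)) (by exact_mod_cast hn)
    (by exact_mod_cast hk) (by push_cast; linarith)
  have h2 : ((k + 1 : ℕ) : ℝ) - k = 1 := by push_cast; ring
  rw [h2, mul_one] at h1
  have h3 := G_nonneg h (fn_good h n) (n := n) (t := k) (by exact_mod_cast hn)
    (by exact_mod_cast hk)
  have h4 := Nat.floor_le_floor h1
  rw [Nat.floor_add_natCast h3] at h4
  exact h4

/-- Number of free coordinates at level `k` of block `n`. -/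
noncomputable def mN (φL φA : ℝ → ℝ) (n k : ℕ) : ℕ := gN φL φA n (k + 1) - gN φL φA n k

theorem mN_le (h : CondJ d φL φA) {n k : ℕ} (hn : 0 < n) (hk : n ≤ k) : mN φL φA n k ≤ d := by
  have := gN_succ h hn hk
  unfold mN
  omega

theorem sum_mN (h : CondJ d φL φA) {n s : ℕ} (hn : 0 < n) (hs : n ≤ s) (t : ℕ) (ht : s ≤ t) :
    ∑ k ∈ Finset.Ico s t, mN φL φA n k = gN φL φA n t - gN φL φA n s := by
  induction t, ht using Nat.le_induction with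
  | base => simp
  | succ t ht ih =>
    rw [Finset.sum_Ico_succ_top ht, ih]
    have h1 := gN_mono h hn hs ht
    have h2 := gN_mono h hn (hs.trans ht) (Nat.le_add_right t 1)
    unfold mN
    omega

end Pool.Agent.R165.Spec
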