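import Pool.Agent.R165.Spec.A

/-!
# Binary digit sets
-/

namespace Pool.Agent.R165.Spec

open Finset

/-- The value of a finite set of binary digits. -/
noncomputable def val (A : Finset ℕ) : ℝ := ∑ k ∈ A, (1 / 2 : ℝ) ^ (k + 1)

theorem val_nonneg (A : Finset ℕ) : 0 ≤ val A := Finset.sum_nonneg fun _ _ => by positivity

theorem sum_Ico_half {a b : ℕ} (hab : a ≤ b) :
    ∑ k ∈ Finset.Ico a b, (1 / 2 : ℝ) ^ (k + 1) = (1 / 2) ^ a - (1 / 2) ^ b := by
  induction b, hab using Nat.le_induction with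
  | base => simp
  | succ b hab ih =>
    rw [Finset.sum_Ico_succ_top hab, ih, pow_succ]
    ring

theorem val_le {A : Finset ℕ} {a : ℕ} (h : ∀ k ∈ A, a ≤ k) : val A ≤ (1 / 2) ^ a := by
  set b := max a (A.sup id + 1) with hb
  have hsub : A ⊆ Finset.Ico a b := by
    intro k hk
    rw [Finset.mem_Ico]
    have h1 : id k ≤ A.sup id := Finset.le_sup hk
    rw [id] at h1
    exact ⟨h k hk, by omega⟩
  have h1 : val A ≤ ∑ k ∈ Finset.Ico a b, (1 / 2 : ℝ) ^ (k + 1) :=
    Finset.sum_le_sum_of_subset_of_nonneg hsub fun _ _ _ => by positivity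
  rw [sum_Ico_half (le_max_left _ _)] at h1
  have h2 : (0 : ℝ) < (1 / 2) ^ b := by positivity
  linarith

theorem val_split (A : Finset ℕ) (s : ℕ) :
    val A = val (A.filter (· < s)) + val (A.filter fun k => ¬ k < s) :=
  (Finset.sum_filter_add_sum_filter_not A (· < s) _).symm

theorem val_trunc (A : Finset ℕ) (s : ℕ) :
    0 ≤ val A - val (A.filter (· < s)) ∧ val A - val (A.filter (· < s)) ≤ (1 / 2) ^ s := by
  rw [val_split A s]
  have h1 := val_nonneg (A.filter fun k => ¬ k < s)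
  have h2 : val (A.filter fun k => ¬ k < s) ≤ (1 / 2) ^ s := val_le fun k hk => by
    rw [Finset.mem_filter] at hk
    omega
  constructor <;> linarith

/-- The integer numerator. -/
def num (T : ℕ) (A : Finset ℕ) : ℕ := ∑ k ∈ A, 2 ^ (T - 1 - k)

theorem val_eq_num {T : ℕ} {A : Finset ℕ} (h : ∀ k ∈ A, k < T) :
    val A = num T A * (1 / 2 : ℝ) ^ T := by
  unfold val num
  push_cast
  rw [Finset.sum_mul]
  refine Finset.sum_congr rfl fun k hk => ?_
  have h1 := h k hk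
  obtain ⟨j, hj⟩ : ∃ j, T = k + 1 + j := ⟨T - (k + 1), by omega⟩
  have h2 : T - 1 - k = j := by omega
  rw [h2, hj, pow_add (1 / 2 : ℝ) (k + 1) j, one_div]
  rw [mul_left_comm, ← mul_pow]
  norm_num

theorem num_injOn {T : ℕ} {A B : Finset ℕ} (hA : ∀ k ∈ A, k < T) (hB : ∀ k ∈ B, k < T)
    (h : num T A = num T B) : A = B := by
  have key : ∀ C : Finset ℕ, (∀ k ∈ C, k < T) →
      num T C = ∑ j ∈ C.image (fun k => T - 1 - k), 2 ^ j := by
    intro C hC
    rw [Finset.sum_image]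
    · rfl
    · intro a ha b hb hab
      have h1 := hC a ha
      have h2 := hC b hb
      simp only at hab
      omega
  rw [key A hA, key B hB] at h
  have h1 := Finset.geomSum_injective le_rfl h
  ext k
  have key2 : ∀ C : Finset ℕ, (∀ k ∈ C, k < T) → k < T →
      (k ∈ C ↔ T - 1 - k ∈ C.image (fun k => T - 1 - k)) := by
    intro C hC hk
    rw [Finset.mem_image]
    constructor
    · intro h
      exact ⟨k, h, rfl⟩
    · rintro ⟨a, ha, hak⟩
      have h1 := hC a ha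
      have h2 : a = k := by omega
      rwa [← h2]
  by_cases hk : k < T
  · rw [key2 A hA hk, key2 B hB hk, h1]
  · exact ⟨fun h => absurd (hA k h) hk, fun h => absurd (hB k h) hk⟩

theorem val_sep {T : ℕ} {A B : Finset ℕ} (hA : ∀ k ∈ A, k < T) (hB : ∀ k ∈ B, k < T)
    (h : A ≠ B) : (1 / 2 : ℝ) ^ T ≤ |val A - val B| := by
  rw [val_eq_num hA, val_eq_num hB, ← sub_mul, abs_mul]
  have h1 : num T A ≠ num T B := fun h' => h (num_injOn hA hB h')
  have h2 : (1 : ℝ) ≤ |(num T A : ℝ) - num T B| := by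
    have h3 : (1 : ℤ) ≤ |(num T A : ℤ) - num T B| := by
      rw [← zero_add (1 : ℤ), Int.add_one_le_iff, abs_pos]
      intro h4
      exact h1 (by exact_mod_cast sub_eq_zero.mp h4)
    exact_mod_cast h3
  have h3 : (0 : ℝ) < (1 / 2) ^ T := by positivity
  rw [abs_of_pos h3]
  nlinarith

/-! ## Points -/

variable {d : ℕ}

/-- The digits of coordinate `i`. -/
def dig (S : Finset (ℕ × Fin d)) (i : Fin d) : Finset ℕ :=
  (S.filter fun p => p.2 = i).image Prod.fst

theorem mem_dig {S : Finset (ℕ × Fin d)} {i : Fin d} {k : ℕ} : k ∈ dig S i ↔ (k, i) ∈ S := by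
  unfold dig
  rw [Finset.mem_image]
  constructor
  · rintro ⟨⟨a, b⟩, hp, rfl⟩
    rw [Finset.mem_filter] at hp
    obtain ⟨h1, h2⟩ := hp
    simp only at h2
    rw [← h2]
    exact h1
  · intro h
    exact ⟨(k, i), Finset.mem_filter.mpr ⟨h, rfl⟩, rfl⟩

/-- The point with block number `n` and digit set `S`. -/
noncomputable def vec (n : ℕ) (S : Finset (ℕ × Fin d)) : EuclideanSpace ℝ (Fin d) :=
  WithLp.toLp 2 fun i => (1 / 2 : ℝ) ^ n + val (dig S i)

theorem vec_apply (n : ℕ) (S : Finset (ℕ × Fin d)) (i : Fin d) :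
    vec n S i = (1 / 2 : ℝ) ^ n + val (dig S i) := rfl

theorem dig_filter (S : Finset (ℕ × Fin d)) (i : Fin d) (s : ℕ) :
    dig (S.filter fun p => p.1 < s) i = (dig S i).filter (· < s) := by
  ext k
  rw [mem_dig, Finset.mem_filter, Finset.mem_filter, mem_dig]

theorem norm_le_of {x : EuclideanSpace ℝ (Fin d)} {M : ℝ} (hM : 0 ≤ M) (h : ∀ i, |x i| ≤ M) :
    ‖x‖ ≤ d * M := by
  rw [EuclideanSpace.norm_eq]
  refine Real.sqrt_le_iff.mpr ⟨by positivity, ?_⟩
  have h1 : ∑ i, ‖x i‖ ^ 2 ≤ ∑ _i : Fin d, M ^ 2 := by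
    refine Finset.sum_le_sum fun i _ => ?_
    rw [Real.norm_eq_abs]
    exact pow_le_pow_left₀ (abs_nonneg _) (h i) 2
  rw [Finset.sum_const, Finset.card_univ, Fintype.card_fin, nsmul_eq_mul] at h1
  refine h1.trans ?_
  rw [mul_pow]
  refine mul_le_mul_of_nonneg_right ?_ (by positivity)
  have h2 : (d : ℝ) ≤ (d : ℝ) * d := by
    rcases Nat.eq_zero_or_pos d with h | h
    · simp [h]
    · have : (1 : ℝ) ≤ d := by exact_mod_cast h
      nlinarith
  nlinarith

theorem abs_le_norm (x : EuclideanSpace ℝ (Fin d)) (i : Fin d) : |x i| ≤ ‖x‖ := by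
  have := EuclideanSpace.norm_sq_eq x
  have h1 : |x i| ^ 2 ≤ ‖x‖ ^ 2 := by
    rw [this]
    have h2 := Finset.single_le_sum (f := fun i => ‖x i‖ ^ 2) (fun j _ => by positivity)
      (Finset.mem_univ i)
    simpa using h2
  exact abs_le_of_sq_le_sq' h1 (norm_nonneg _) |> fun h => by
    have h3 := abs_nonneg (x i)
    nlinarith [norm_nonneg x]

/-- The window of allowed digit positions of levels in `[s, T)`. -/
def win (d : ℕ) (m : ℕ → ℕ) (s T : ℕ) : Finset (ℕ × Fin d) :=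
  (Finset.Ico s T ×ˢ Finset.univ).filter fun p => (p.2 : ℕ) < m p.1

theorem mem_win {m : ℕ → ℕ} {s T : ℕ} {p : ℕ × Fin d} :
    p ∈ win d m s T ↔ (s ≤ p.1 ∧ p.1 < T) ∧ (p.2 : ℕ) < m p.1 := by
  unfold win
  rw [Finset.mem_filter, Finset.mem_product, Finset.mem_Ico]
  simp

theorem card_win {m : ℕ → ℕ} {s T : ℕ} (hm : ∀ k, s ≤ k → m k ≤ d) :
    (win d m s T).card = ∑ k ∈ Finset.Ico s T, m k := by
  unfold win
  rw [Finset.card_filter, Finset.sum_product]
  refine Finset.sum_congr rfl fun k hk => ?_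
  rw [← Finset.card_filter]
  exact (Fin.card_filter_val_lt (n := d) (m := m k)).trans
    (min_eq_right (hm k (Finset.mem_Ico.mp hk).1))

/-! ## Covering numbers -/

/-- The least number of closed balls of radius `r` needed to cover `E`. -/
noncomputable def covN (r : ℝ) (E : Set (EuclideanSpace ℝ (Fin d))) : ℕ :=
  sInf {n | ∃ C : Finset (EuclideanSpace ℝ (Fin d)), C.card = n ∧
    E ⊆ ⋃ c ∈ C, Metric.closedBall c r}

theorem covN_le {r : ℝ} {E : Set (EuclideanSpace ℝ (Fin d))}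
    (C : Finset (EuclideanSpace ℝ (Fin d))) (h : ∀ x ∈ E, ∃ c ∈ C, dist x c ≤ r) :
    covN r E ≤ C.card := by
  refine Nat.sInf_le ⟨C, rfl, fun x hx => ?_⟩
  obtain ⟨c, hc, hxc⟩ := h x hx
  exact Set.mem_iUnion₂.mpr ⟨c, hc, hxc⟩

theorem le_covN {r : ℝ} (hr : 0 < r) {E : Set (EuclideanSpace ℝ (Fin d))}
    (hE : Bornology.IsBounded E) (Y : Finset (EuclideanSpace ℝ (Fin d))) (hY : ∀ y ∈ Y, y ∈ E)
    (hsep : ∀ y ∈ Y, ∀ z ∈ Y, y ≠ z → 2 * r < dist y z) : Y.card ≤ covN r E := by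
  have hne : {n | ∃ C : Finset (EuclideanSpace ℝ (Fin d)), C.card = n ∧
      E ⊆ ⋃ c ∈ C, Metric.closedBall c r}.Nonempty := by
    have h1 : TotallyBounded E := hE.isCompact_closure.totallyBounded.subset subset_closure
    obtain ⟨t, ht, hcov⟩ := Metric.totallyBounded_iff.mp h1 r hr
    refine ⟨_, ht.toFinset, rfl, fun x hx => ?_⟩
    obtain ⟨c, hc, hxc⟩ := Set.mem_iUnion₂.mp (hcov hx)
    exact Set.mem_iUnion₂.mpr ⟨c, ht.mem_toFinset.mpr hc, Metric.ball_subset_closedBall hxc⟩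
  obtain ⟨C, hC, hcov⟩ := Nat.sInf_mem hne
  unfold covN
  rw [← hC]
  have h1 : ∀ y ∈ Y, ∃ c ∈ C, dist y c ≤ r := by
    intro y hy
    obtain ⟨c, hc, hyc⟩ := Set.mem_iUnion₂.mp (hcov (hY y hy))
    exact ⟨c, hc, hyc⟩
  choose! f hf1 hf2 using h1
  refine Finset.card_le_card_of_injOn f (fun y hy => hf1 y hy) ?_
  intro y hy z hz hyz
  by_contra hne
  have h2 := hsep y hy z hz hne
  have h3 := dist_triangle_right y z (f y)
  have h4 := hf2 y hy
  have h5 := hf2 z hz
  rw [← hyz] at h5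
  linarith

end Pool.Agent.R165.Spec
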