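import Pool.Agent.R165.Spec.B

/-!
# The set and its covering numbers at integer scales
-/

namespace Pool.Agent.R165.Spec

open Finset

variable {d : ℕ} {φL φA : ℝ → ℝ}

/-- Digit sets allowed in block `n`. -/
def Allowed (φL φA : ℝ → ℝ) (n : ℕ) (S : Finset (ℕ × Fin d)) : Prop :=
  ∀ p ∈ S, n + 1 ≤ p.1 ∧ (p.2 : ℕ) < mN φL φA n p.1

/-- Block `n`. -/
def Blk (d : ℕ) (φL φA : ℝ → ℝ) (n : ℕ) : Set (EuclideanSpace ℝ (Fin d)) :=
  {x | ∃ S, Allowed φL φA n S ∧ x = vec n S}

/-- The set. -/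
def FS (d : ℕ) (φL φA : ℝ → ℝ) : Set (EuclideanSpace ℝ (Fin d)) :=
  {x | ∃ n, 1 ≤ n ∧ x ∈ Blk d φL φA n}

theorem allowed_empty (n : ℕ) : Allowed φL φA n (∅ : Finset (ℕ × Fin d)) :=
  fun p hp => absurd hp (Finset.notMem_empty p)

theorem Allowed.mono {n : ℕ} {S S' : Finset (ℕ × Fin d)} (h : Allowed φL φA n S)
    (hS : S' ⊆ S) : Allowed φL φA n S' := fun p hp => h p (hS hp)

theorem vec_bounds {n : ℕ} {S : Finset (ℕ × Fin d)} (hS : Allowed φL φA n S) (i : Fin d) :
    (1 / 2 : ℝ) ^ n ≤ vec n S i ∧ vec n S i ≤ 3 / 2 * (1 / 2) ^ n := by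
  rw [vec_apply]
  have h1 := val_nonneg (dig S i)
  have h2 : val (dig S i) ≤ (1 / 2) ^ (n + 1) := val_le fun k hk => (hS _ (mem_dig.mp hk)).1
  rw [pow_succ] at h2
  constructor <;> linarith

theorem vec_trunc (n s : ℕ) (S : Finset (ℕ × Fin d)) (i : Fin d) :
    |vec n S i - vec n (S.filter fun p => p.1 < s) i| ≤ (1 / 2) ^ s := by
  rw [vec_apply, vec_apply, dig_filter]
  have := val_trunc (dig S i) s
  rw [abs_le]
  have h0 : (0 : ℝ) < (1 / 2) ^ s := by positivity
  constructor <;> linarith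

theorem dist_trunc (n s : ℕ) (S : Finset (ℕ × Fin d)) :
    dist (vec n S) (vec n (S.filter fun p => p.1 < s)) ≤ d * (1 / 2) ^ s := by
  rw [dist_eq_norm]
  exact norm_le_of (by positivity) fun i => vec_trunc n s S i

/-- Two points of a block with the same digits below level `s`. -/
theorem dist_same {n s : ℕ} {S S' : Finset (ℕ × Fin d)}
    (h : (S.filter fun p => p.1 < s) = S'.filter fun p => p.1 < s) :
    dist (vec n S) (vec n S') ≤ d * (1 / 2) ^ s := by
  rw [dist_eq_norm]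
  refine norm_le_of (by positivity) fun i => ?_
  change |vec n S i - vec n S' i| ≤ _
  rw [vec_apply, vec_apply]
  have h1 := val_trunc (dig S i) s
  have h2 := val_trunc (dig S' i) s
  rw [← dig_filter] at h1 h2
  rw [h] at h1
  rw [abs_le]
  constructor <;> linarith

theorem norm_vec_le {n : ℕ} {S : Finset (ℕ × Fin d)} (hS : Allowed φL φA n S) :
    ‖vec n S‖ ≤ d * (3 / 2 * (1 / 2) ^ n) := by
  refine norm_le_of (by positivity) fun i => ?_
  have h1 := vec_bounds hS i
  have h2 : (0 : ℝ) < (1 / 2) ^ n := by positivity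
  rw [abs_of_nonneg (by linarith)]
  exact h1.2

theorem filter_mem_win {n s : ℕ} {S : Finset (ℕ × Fin d)} (hS : Allowed φL φA n S) (a : ℕ) :
    (S.filter fun p => a ≤ p.1 ∧ p.1 < s) ⊆ win d (mN φL φA n) a s := by
  intro p hp
  rw [Finset.mem_filter] at hp
  rw [mem_win]
  exact ⟨hp.2, (hS p hp.1).2⟩

theorem card_win_gN (h : CondJ d φL φA) {n s T : ℕ} (hn : 0 < n) (hs : n ≤ s) (hT : s ≤ T) :
    (win d (mN φL φA n) s T).card = gN φL φA n T - gN φL φA n s := by
  rw [card_win fun k hk => mN_le h hn (hs.trans hk), sum_mN h hn hs T hT]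

theorem S_ext {S S' : Finset (ℕ × Fin d)} (h : ∀ i, dig S i = dig S' i) : S = S' := by
  ext ⟨k, i⟩
  rw [← mem_dig, ← mem_dig, h i]

/-- Covering of a small piece of a block. -/
theorem cover_small (h : CondJ d φL φA) {n s T : ℕ} (hn : 0 < n) (hs : n + 1 ≤ s) (hT : s ≤ T)
    (y : EuclideanSpace ℝ (Fin d)) :
    ∃ C : Finset (EuclideanSpace ℝ (Fin d)),
      C.card ≤ 5 ^ d * 2 ^ (gN φL φA n T - gN φL φA n s) ∧
      ∀ x ∈ Blk d φL φA n, dist x y ≤ (1 / 2) ^ s → ∃ c ∈ C, dist x c ≤ d * (1 / 2) ^ T := by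
  classical
  set m := mN φL φA n with hm
  set Q : Finset (Finset (ℕ × Fin d)) := (win d m (n + 1) s).powerset.filter fun S =>
    ∀ i, |vec n S i - y i| ≤ 2 * (1 / 2) ^ s with hQ
  have hQcard : Q.card ≤ 5 ^ d := by
    set cc : Fin d → ℝ := fun i => (y i - (1 / 2) ^ n) * 2 ^ s with hcc
    set B : Finset (Fin d → ℤ) := Fintype.piFinset fun i => Finset.Icc ⌈cc i - 2⌉ ⌊cc i + 2⌋ with hB
    have hBcard : B.card ≤ 5 ^ d := by
      rw [hB, Fintype.card_piFinset]
      have h1 : ∏ i : Fin d, (Finset.Icc ⌈cc i - 2⌉ ⌊cc i + 2⌋).card ≤ ∏ _i : Fin d, 5 := by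
        refine Finset.prod_le_prod' fun i _ => ?_
        rw [Int.card_Icc]
        have h2 := Int.floor_le (cc i + 2)
        have h3 := Int.le_ceil (cc i - 2)
        have h4 : ((⌊cc i + 2⌋ - ⌈cc i - 2⌉ : ℤ) : ℝ) ≤ 4 := by
          push_cast
          linarith
        have h5 : ⌊cc i + 2⌋ - ⌈cc i - 2⌉ ≤ 4 := by exact_mod_cast h4
        omega
      simpa using h1
    refine le_trans (Finset.card_le_card_of_injOn (fun S i => (num s (dig S i) : ℤ)) ?_ ?_) hBcard
    · intro S hS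
      rw [Finset.mem_coe, hQ, Finset.mem_filter, Finset.mem_powerset] at hS
      rw [Finset.mem_coe, hB, Fintype.mem_piFinset]
      intro i
      have h1 := hS.2 i
      have h2 : val (dig S i) = num s (dig S i) * (1 / 2 : ℝ) ^ s :=
        val_eq_num fun k hk => (mem_win.mp (hS.1 (mem_dig.mp hk))).1.2
      rw [vec_apply, h2] at h1
      have h3 : (0 : ℝ) < 2 ^ s := by positivity
      have h4 : (1 / 2 : ℝ) ^ s * 2 ^ s = 1 := by
        rw [← mul_pow]
        norm_num
      have h5 : |(num s (dig S i) : ℝ) - cc i| ≤ 2 := by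
        have h6 : (num s (dig S i) : ℝ) - cc i =
            ((1 / 2) ^ n + num s (dig S i) * (1 / 2 : ℝ) ^ s - y i) * 2 ^ s := by
          simp only [hcc]
          linear_combination (-(num s (dig S i) : ℝ)) * h4
        rw [h6, abs_mul, abs_of_pos h3]
        calc _ ≤ 2 * (1 / 2) ^ s * 2 ^ s := mul_le_mul_of_nonneg_right h1 h3.le
          _ = 2 := by rw [mul_assoc, h4, mul_one]
      rw [abs_le] at h5
      rw [Finset.mem_Icc, Int.ceil_le, Int.le_floor]
      push_cast
      constructor <;> linarith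
    · intro S hS S' hS' hSS
      rw [Finset.mem_coe, hQ, Finset.mem_filter, Finset.mem_powerset] at hS hS'
      refine S_ext fun i => ?_
      have h1 := congrFun hSS i
      simp only [Nat.cast_inj] at h1
      exact num_injOn (fun k hk => (mem_win.mp (hS.1 (mem_dig.mp hk))).1.2)
        (fun k hk => (mem_win.mp (hS'.1 (mem_dig.mp hk))).1.2) h1
  refine ⟨(Q ×ˢ (win d m s T).powerset).image fun p => vec n (p.1 ∪ p.2), ?_, ?_⟩
  · refine Finset.card_image_le.trans ?_
    rw [Finset.card_product, Finset.card_powerset, card_win_gN h hn (by omega) hT]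
    exact Nat.mul_le_mul_right _ hQcard
  · rintro x ⟨S, hS, rfl⟩ hxy
    refine ⟨vec n (S.filter fun p => p.1 < T), ?_, dist_trunc n T S⟩
    rw [Finset.mem_image]
    refine ⟨(S.filter fun p => p.1 < s, S.filter fun p => s ≤ p.1 ∧ p.1 < T), ?_, ?_⟩
    · rw [Finset.mem_product, hQ, Finset.mem_filter, Finset.mem_powerset, Finset.mem_powerset]
      refine ⟨⟨fun p hp => ?_, fun i => ?_⟩, filter_mem_win hS s⟩
      · rw [Finset.mem_filter] at hp
        rw [mem_win]
        exact ⟨⟨(hS p hp.1).1, hp.2⟩, (hS p hp.1).2⟩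
      · have h1 := vec_trunc n s S i
        have h2 : |vec n S i - y i| ≤ (1 / 2) ^ s := by
          have h3 := abs_le_norm (vec n S - y) i
          rw [← dist_eq_norm] at h3
          exact h3.trans hxy
        rw [abs_le] at h1 h2 ⊢
        constructor <;> linarith
    · congr 1
      ext p
      simp only [Finset.mem_union, Finset.mem_filter]
      constructor
      · rintro (⟨h1, h2⟩ | ⟨h1, h2⟩)
        · exact ⟨h1, by omega⟩
        · exact ⟨h1, h2.2⟩
      · rintro ⟨h1, h2⟩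
        by_cases h3 : p.1 < s
        · exact Or.inl ⟨h1, h3⟩
        · exact Or.inr ⟨h1, by omega, h2⟩

/-- Covering of a whole block. -/
theorem cover_block (h : CondJ d φL φA) {n : ℕ} (hn : 0 < n) (T : ℕ) :
    ∃ C : Finset (EuclideanSpace ℝ (Fin d)), C.card ≤ 2 ^ gN φL φA n T ∧
      ∀ x ∈ Blk d φL φA n, ∃ c ∈ C, dist x c ≤ d * (1 / 2) ^ T := by
  classical
  refine ⟨(win d (mN φL φA n) (n + 1) T).powerset.image (vec n), ?_, ?_⟩
  · refine Finset.card_image_le.trans ?_
    rw [Finset.card_powerset]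
    refine Nat.pow_le_pow_right (by norm_num) ?_
    by_cases hT : n + 1 ≤ T
    · rw [card_win_gN h hn (by omega) hT]
      omega
    · have h1 : win d (mN φL φA n) (n + 1) T = ∅ := by
        rw [Finset.eq_empty_iff_forall_notMem]
        intro p hp
        rw [mem_win] at hp
        omega
      rw [h1, Finset.card_empty]
      exact Nat.zero_le _
  · rintro x ⟨S, hS, rfl⟩
    refine ⟨vec n (S.filter fun p => p.1 < T), ?_, dist_trunc n T S⟩
    refine Finset.mem_image_of_mem _ ?_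
    rw [Finset.mem_powerset]
    intro p hp
    rw [Finset.mem_filter] at hp
    rw [mem_win]
    exact ⟨⟨(hS p hp.1).1, hp.2⟩, (hS p hp.1).2⟩

/-- Many separated points in a piece of a block. -/
theorem many_points (h : CondJ d φL φA) {n w T : ℕ} (hn : 0 < n) (hw : n + 1 ≤ w) (hT : w ≤ T)
    {S0 : Finset (ℕ × Fin d)} (hS0 : Allowed φL φA n S0) (hS0w : ∀ p ∈ S0, p.1 < w)
    {r : ℝ} (hr0 : 0 < r) (hr : 2 * r < (1 / 2) ^ T) {E : Set (EuclideanSpace ℝ (Fin d))}
    (hE : Bornology.IsBounded E)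
    (hsub : ∀ S, Allowed φL φA n S → (S.filter fun p => p.1 < w) = S0 → vec n S ∈ E) :
    2 ^ (gN φL φA n T - gN φL φA n w) ≤ covN r E := by
  classical
  set W := win d (mN φL φA n) w T with hW
  have hfil : ∀ S ∈ W.powerset, ((S0 ∪ S).filter fun p => p.1 < w) = S0 := by
    intro S hS
    rw [Finset.mem_powerset] at hS
    ext p
    rw [Finset.mem_filter, Finset.mem_union]
    constructor
    · rintro ⟨h1 | h1, h2⟩
      · exact h1
      · have := (mem_win.mp (hS h1)).1.1
        omega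
    · intro h1
      exact ⟨Or.inl h1, hS0w p h1⟩
  have hall : ∀ S ∈ W.powerset, Allowed φL φA n (S0 ∪ S) := by
    intro S hS p hp
    rw [Finset.mem_powerset] at hS
    rcases Finset.mem_union.mp hp with h1 | h1
    · exact hS0 p h1
    · have h2 := mem_win.mp (hS h1)
      exact ⟨by omega, h2.2⟩
  have hlt : ∀ S ∈ W.powerset, ∀ i, ∀ k ∈ dig (S0 ∪ S) i, k < T := by
    intro S hS i k hk
    rw [Finset.mem_powerset] at hS
    rcases Finset.mem_union.mp (mem_dig.mp hk) with h1 | h1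
    · exact (hS0w _ h1).trans_le hT
    · exact (mem_win.mp (hS h1)).1.2
  have hinj : ∀ S ∈ W.powerset, ∀ S' ∈ W.powerset, S0 ∪ S = S0 ∪ S' → S = S' := by
    intro S hS S' hS' heq
    rw [Finset.mem_powerset] at hS hS'
    have key : ∀ S1 S2 : Finset (ℕ × Fin d), S1 ⊆ W → S0 ∪ S1 = S0 ∪ S2 → S1 ⊆ S2 := by
      intro S1 S2 h1 h2 p hp
      have h3 : p ∈ S0 ∪ S2 := by
        rw [← h2]
        exact Finset.mem_union_right _ hp
      rcases Finset.mem_union.mp h3 with h4 | h4
      · have h5 := hS0w p h4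
        have h6 := (mem_win.mp (h1 hp)).1.1
        omega
      · exact h4
    exact (key S S' hS heq).antisymm (key S' S hS' heq.symm)
  have hsepS : ∀ S ∈ W.powerset, ∀ S' ∈ W.powerset, S ≠ S' →
      (1 / 2 : ℝ) ^ T ≤ dist (vec n (S0 ∪ S)) (vec n (S0 ∪ S')) := by
    intro S hS S' hS' hne
    have h1 : ∃ i, dig (S0 ∪ S) i ≠ dig (S0 ∪ S') i := by
      by_contra hcon
      push Not at hcon
      exact hne (hinj S hS S' hS' (S_ext hcon))
    obtain ⟨i, hi⟩ := h1
    have h2 := val_sep (hlt S hS i) (hlt S' hS' i) hi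
    have h3 := abs_le_norm (vec n (S0 ∪ S) - vec n (S0 ∪ S')) i
    rw [← dist_eq_norm] at h3
    refine h2.trans (le_trans (le_of_eq ?_) h3)
    change _ = |vec n (S0 ∪ S) i - vec n (S0 ∪ S') i|
    rw [vec_apply, vec_apply]
    congr 1
    ring
  have hpos : (0 : ℝ) < (1 / 2) ^ T := by positivity
  have hcard : (W.powerset.image fun S => vec n (S0 ∪ S)).card =
      2 ^ (gN φL φA n T - gN φL φA n w) := by
    rw [Finset.card_image_of_injOn, Finset.card_powerset, card_win_gN h hn (by omega) hT]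
    intro S hS S' hS' heq
    by_contra hne
    have h1 := hsepS S hS S' hS' hne
    simp only at heq
    rw [heq, dist_self] at h1
    linarith
  rw [← hcard]
  refine le_covN hr0 hE _ ?_ ?_
  · intro y hy
    obtain ⟨S, hS, rfl⟩ := Finset.mem_image.mp hy
    exact hsub _ (hall S hS) (hfil S hS)
  · intro y hy z hz hne
    obtain ⟨S, hS, rfl⟩ := Finset.mem_image.mp hy
    obtain ⟨S', hS', rfl⟩ := Finset.mem_image.mp hz
    refine hr.trans_le (hsepS S hS S' hS' ?_)
    rintro rfl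
    exact hne rfl

end Pool.Agent.R165.Spec
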