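import Pool.Agent.R165.Spec.C

/-!
# Covering numbers of the set at real scales
-/

namespace Pool.Agent.R165.Spec

open Finset

variable {d : ℕ} {φL φA : ℝ → ℝ}

theorem half_pow (k : ℕ) : (1 / 2 : ℝ) ^ k = (2 : ℝ) ^ (-(k : ℝ)) := by
  rw [Real.rpow_neg (by norm_num), Real.rpow_natCast, one_div, inv_pow]

theorem half_le {k : ℕ} {s : ℝ} (h : s ≤ k) : (1 / 2 : ℝ) ^ k ≤ (2 : ℝ) ^ (-s) := by
  rw [half_pow]
  exact Real.rpow_le_rpow_of_exponent_le (by norm_num) (by linarith)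

theorem le_half {k : ℕ} {s : ℝ} (h : (k : ℝ) ≤ s) : (2 : ℝ) ^ (-s) ≤ (1 / 2 : ℝ) ^ k := by
  rw [half_pow]
  exact Real.rpow_le_rpow_of_exponent_le (by norm_num) (by linarith)

/-- `d * (1/2)^k ≤ 2^(-s) / 4` if `k ≥ s + d + 2`. -/
theorem d_half_le {k : ℕ} {s : ℝ} (h : s + d + 2 ≤ k) :
    d * (1 / 2 : ℝ) ^ k ≤ (2 : ℝ) ^ (-s) / 4 := by
  have h1 : (1 / 2 : ℝ) ^ k ≤ (2 : ℝ) ^ (-(s + d + 2)) := half_le h
  have h2 : (2 : ℝ) ^ (-(s + d + 2)) = (2 : ℝ) ^ (-s) * ((2 : ℝ) ^ d)⁻¹ / 4 := by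
    rw [show -(s + d + 2) = -s + (-(d : ℝ)) + (-2) by ring, Real.rpow_add (by norm_num),
      Real.rpow_add (by norm_num), Real.rpow_neg (by norm_num) (d : ℝ), Real.rpow_natCast]
    norm_num
    ring
  have h3 : (d : ℝ) ≤ 2 ^ d := by exact_mod_cast (Nat.lt_two_pow_self (n := d)).le
  have h4 : (0 : ℝ) < 2 ^ (-s) := by positivity
  have h5 : (0 : ℝ) < 2 ^ d := by positivity
  calc d * (1 / 2 : ℝ) ^ k ≤ d * ((2 : ℝ) ^ (-s) * ((2 : ℝ) ^ d)⁻¹ / 4) := by
        rw [← h2]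
        exact mul_le_mul_of_nonneg_left h1 (by positivity)
    _ = (d / (2 : ℝ) ^ d) * ((2 : ℝ) ^ (-s) / 4) := by ring
    _ ≤ 1 * ((2 : ℝ) ^ (-s) / 4) := by
        refine mul_le_mul_of_nonneg_right ?_ (by positivity)
        rw [div_le_one h5]
        exact h3
    _ = _ := one_mul _

/-- The upper integer level of `t`. -/
noncomputable def up (d : ℕ) (t : ℝ) : ℕ := ⌈t⌉₊ + d + 2

theorem up_bounds (d : ℕ) {t : ℝ} (ht : 0 ≤ t) : t + d + 2 ≤ up d t ∧ (up d t : ℝ) < t + d + 3 := by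
  unfold up
  have h1 := Nat.le_ceil t
  have h2 := Nat.ceil_lt_add_one ht
  push_cast
  constructor <;> linarith

theorem rad_le {t : ℝ} (ht : 0 ≤ t) : d * (1 / 2 : ℝ) ^ up d t ≤ (2 : ℝ) ^ (-t) := by
  have h1 := d_half_le (d := d) (k := up d t) (s := t) (by have := (up_bounds d ht).1; linarith)
  have h2 : (0 : ℝ) < (2 : ℝ) ^ (-t) := by positivity
  linarith

/-- A point in block `n` has coordinates between `2^{-n}` and `3/2 * 2^{-n}`. -/
theorem blk_bounds {n : ℕ} {x : EuclideanSpace ℝ (Fin d)} (hx : x ∈ Blk d φL φA n) (i : Fin d) :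
    (1 / 2 : ℝ) ^ n ≤ x i ∧ x i ≤ 3 / 2 * (1 / 2) ^ n := by
  obtain ⟨S, hS, rfl⟩ := hx
  exact vec_bounds hS i

/-- Small balls meet only one block. -/
theorem same_block (hd : 0 < d) {n m : ℕ} {x y : EuclideanSpace ℝ (Fin d)}
    (hx : x ∈ Blk d φL φA n) (hy : y ∈ Blk d φL φA m) (hxy : dist y x < (1 / 2) ^ (n + 2)) :
    m = n := by
  let i : Fin d := ⟨0, hd⟩
  have h1 := blk_bounds hx i
  have h2 := blk_bounds hy i
  have h3 : |y i - x i| < (1 / 2) ^ (n + 2) := by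
    have h4 := abs_le_norm (y - x) i
    rw [← dist_eq_norm] at h4
    exact h4.trans_lt hxy
  rw [abs_lt, pow_add] at h3
  have h0 : (0 : ℝ) < (1 / 2) ^ n := by positivity
  by_contra hne
  rcases lt_or_gt_of_ne hne with h | h
  · -- m < n
    have h5 : (1 / 2 : ℝ) ^ n ≤ (1 / 2) ^ (m + 1) :=
      pow_le_pow_of_le_one (by norm_num) (by norm_num) h
    rw [pow_succ] at h5
    norm_num at h3
    linarith
  · have h5 : (1 / 2 : ℝ) ^ m ≤ (1 / 2) ^ (n + 1) :=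
      pow_le_pow_of_le_one (by norm_num) (by norm_num) h
    rw [pow_succ] at h5
    norm_num at h3
    linarith

/-- Upper bound for small balls. -/
theorem upper_small (h : CondJ d φL φA) (hd : 0 < d) {n : ℕ} (hn : 0 < n)
    {x : EuclideanSpace ℝ (Fin d)} (hx : x ∈ Blk d φL φA n) {s t : ℝ} (hs : (n : ℝ) + 2 < s)
    (hst : s ≤ t) :
    covN ((2 : ℝ) ^ (-t)) (Metric.closedBall x ((2 : ℝ) ^ (-s)) ∩ FS d φL φA) ≤
      5 ^ d * 2 ^ (gN φL φA n (up d t) - gN φL φA n ⌊s⌋₊) := by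
  have hs0 : 0 ≤ s := by
    have : (0 : ℝ) ≤ n := by positivity
    linarith
  have hfl : n + 2 ≤ ⌊s⌋₊ := Nat.le_floor (by push_cast; linarith)
  have hup := up_bounds d (hs0.trans hst)
  have hle : ⌊s⌋₊ ≤ up d t := by
    have h1 := Nat.floor_le hs0
    have h2 : (⌊s⌋₊ : ℝ) ≤ up d t := by
      have : (0 : ℝ) ≤ d := by positivity
      linarith
    exact_mod_cast h2
  obtain ⟨C, hC, hcov⟩ := cover_small h hn (by omega) hle x
  refine (covN_le C fun y hy => ?_).trans hC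
  obtain ⟨hy1, m, -, hy2⟩ := hy
  rw [Metric.mem_closedBall] at hy1
  have h1 : (2 : ℝ) ^ (-s) < (1 / 2) ^ (n + 2) := by
    rw [half_pow]
    exact Real.rpow_lt_rpow_of_exponent_lt (by norm_num) (by push_cast; linarith)
  have h2 : m = n := same_block hd hx hy2 (hy1.trans_lt h1)
  subst h2
  obtain ⟨c, hc, hyc⟩ := hcov y hy2 (hy1.trans (le_half (Nat.floor_le hs0)))
  exact ⟨c, hc, hyc.trans (rad_le (hs0.trans hst))⟩

/-- Upper bound for large balls. -/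
theorem upper_big (h : CondJ d φL φA) (hd : 0 < d) {n : ℕ}
    {x : EuclideanSpace ℝ (Fin d)} (hx : x ∈ Blk d φL φA n) {s t : ℝ} (hs : s ≤ (n : ℝ) + 2)
    (ht : 0 ≤ t) :
    covN ((2 : ℝ) ^ (-t)) (Metric.closedBall x ((2 : ℝ) ^ (-s)) ∩ FS d φL φA) ≤
      1 + ∑ m ∈ (Finset.Icc 1 (up d t)).filter (fun m : ℕ => s - 3 ≤ m),
        2 ^ gN φL φA m (up d t) := by
  classical
  set T := up d t with hT
  have hc : ∀ m : ℕ, ∃ C : Finset (EuclideanSpace ℝ (Fin d)), 0 < m →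
      C.card ≤ 2 ^ gN φL φA m T ∧
      ∀ x ∈ Blk d φL φA m, ∃ c ∈ C, dist x c ≤ d * (1 / 2) ^ T := by
    intro m
    rcases Nat.eq_zero_or_pos m with h0 | h0
    · exact ⟨∅, fun h => by omega⟩
    · obtain ⟨C, hC⟩ := cover_block h h0 T
      exact ⟨C, fun _ => hC⟩
  choose C hC using hc
  refine (covN_le ({0} ∪ ((Finset.Icc 1 T).filter (fun m : ℕ => s - 3 ≤ m)).biUnion C) ?_).trans
    ((Finset.card_union_le _ _).trans (add_le_add (Finset.card_singleton _).le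
      (Finset.card_biUnion_le.trans (Finset.sum_le_sum fun m hm => ?_))))
  · rintro y ⟨hy1, m, hm1, hy2⟩
    rw [Metric.mem_closedBall] at hy1
    by_cases hmT : m ≤ T
    · obtain ⟨c, hc, hyc⟩ := (hC m hm1).2 y hy2
      refine ⟨c, Finset.mem_union_right _ (Finset.mem_biUnion.mpr ⟨m, ?_, hc⟩),
        hyc.trans (rad_le ht)⟩
      rw [Finset.mem_filter, Finset.mem_Icc]
      refine ⟨⟨hm1, hmT⟩, ?_⟩
      -- `2^{-m} ≤ 8 R`
      let i : Fin d := ⟨0, hd⟩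
      have h1 := (blk_bounds hy2 i).1
      have h2 := (blk_bounds hx i).2
      have h3 : |y i - x i| ≤ (2 : ℝ) ^ (-s) := by
        have h4 := abs_le_norm (y - x) i
        rw [← dist_eq_norm] at h4
        exact h4.trans hy1
      rw [abs_le] at h3
      have h4 : (1 / 2 : ℝ) ^ (n + 2) ≤ (2 : ℝ) ^ (-s) := half_le (by push_cast; exact hs)
      rw [pow_add] at h4
      norm_num at h4
      have h5 : (1 / 2 : ℝ) ^ m ≤ 8 * (2 : ℝ) ^ (-s) := by
        have : (0 : ℝ) < (2 : ℝ) ^ (-s) := by positivity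
        norm_num at h1 h2 ⊢
        linarith
      have h6 : (8 : ℝ) * (2 : ℝ) ^ (-s) = (2 : ℝ) ^ (-(s - 3)) := by
        rw [show -(s - 3) = 3 + -s by ring, Real.rpow_add (by norm_num)]
        norm_num
      rw [h6, half_pow, Real.rpow_le_rpow_left_iff (by norm_num)] at h5
      linarith
    · refine ⟨0, Finset.mem_union_left _ (Finset.mem_singleton_self _), ?_⟩
      rw [dist_zero_right]
      obtain ⟨S, hS, rfl⟩ := hy2
      have h1 := norm_vec_le hS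
      have h2 : (1 / 2 : ℝ) ^ m ≤ (1 / 2) ^ (T + 1) :=
        pow_le_pow_of_le_one (by norm_num) (by norm_num) (by omega)
      rw [pow_succ] at h2
      have h3 : (3 / 2 * (1 / 2) ^ m : ℝ) ≤ (1 / 2) ^ T := by
        have : (0 : ℝ) < (1 / 2) ^ T := by positivity
        linarith
      exact h1.trans ((mul_le_mul_of_nonneg_left h3 (by positivity)).trans (rad_le ht))
  · rw [Finset.mem_filter, Finset.mem_Icc] at hm
    exact (hC m hm.1.1).1

/-- Lower bound: there is a block `m` and a level `w` slightly above `s` giving many points. -/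
theorem lower_gen (h : CondJ d φL φA) {n : ℕ} (hn : 0 < n)
    {x : EuclideanSpace ℝ (Fin d)} (hx : x ∈ Blk d φL φA n) {s t : ℝ} (hs : 0 < s)
    (hT : ⌈s⌉₊ + d + 3 + 2 ≤ ⌈t⌉₊) :
    ∃ m w : ℕ, 0 < m ∧ m + 1 ≤ w ∧ w = ⌈s⌉₊ + d + 3 ∧
      2 ^ (gN φL φA m (⌈t⌉₊ - 2) - gN φL φA m w) ≤
      covN ((2 : ℝ) ^ (-t)) (Metric.closedBall x ((2 : ℝ) ^ (-s)) ∩ FS d φL φA) := by
  have hr0 : (0 : ℝ) < (2 : ℝ) ^ (-t) := by positivity
  have hE : Bornology.IsBounded (Metric.closedBall x ((2 : ℝ) ^ (-s)) ∩ FS d φL φA) :=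
    Metric.isBounded_closedBall.subset Set.inter_subset_left
  have ht0 : 0 ≤ t := by
    by_contra hneg
    have : ⌈t⌉₊ = 0 := Nat.ceil_eq_zero.mpr (by linarith)
    omega
  have hr : 2 * (2 : ℝ) ^ (-t) < (1 / 2) ^ (⌈t⌉₊ - 2) := by
    have h1 : (2 : ℝ) * (2 : ℝ) ^ (-t) = (2 : ℝ) ^ (-(t - 1)) := by
      rw [show -(t - 1) = 1 + -t by ring, Real.rpow_add (by norm_num), Real.rpow_one]
    rw [h1, half_pow]
    refine Real.rpow_lt_rpow_of_exponent_lt (by norm_num) ?_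
    rw [Nat.cast_sub (by omega)]
    have := Nat.ceil_lt_add_one ht0
    push_cast
    linarith
  have hsc := Nat.le_ceil s
  by_cases hcase : n ≤ ⌈s⌉₊ + d + 2
  · refine ⟨n, ⌈s⌉₊ + d + 3, hn, by omega, rfl, ?_⟩
    obtain ⟨S, hS, rfl⟩ := hx
    refine many_points h hn (by omega) (by omega)
      (S0 := S.filter fun p => p.1 < ⌈s⌉₊ + d + 3) (hS.mono (Finset.filter_subset _ _))
      (fun p hp => (Finset.mem_filter.mp hp).2) hr0 hr hE ?_
    intro S' hS' hfil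
    refine ⟨?_, n, hn, S', hS', rfl⟩
    rw [Metric.mem_closedBall]
    refine (dist_same hfil).trans ?_
    have h1 := d_half_le (d := d) (k := ⌈s⌉₊ + d + 3) (s := s) (by push_cast; linarith)
    have h2 : (0 : ℝ) < (2 : ℝ) ^ (-s) := by positivity
    linarith
  · refine ⟨⌈s⌉₊ + d + 2, ⌈s⌉₊ + d + 3, by omega, le_rfl, rfl, ?_⟩
    refine many_points h (by omega) le_rfl (by omega) (S0 := ∅) (allowed_empty _)
      (fun p hp => absurd hp (Finset.notMem_empty p)) hr0 hr hE ?_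
    intro S' hS' _
    refine ⟨?_, ⌈s⌉₊ + d + 2, by omega, S', hS', rfl⟩
    rw [Metric.mem_closedBall]
    obtain ⟨S, hS, rfl⟩ := hx
    refine (dist_le_norm_add_norm _ _).trans ?_
    have h1 := norm_vec_le hS'
    have h2 := norm_vec_le hS
    have h3 : (1 / 2 : ℝ) ^ n ≤ (1 / 2) ^ (⌈s⌉₊ + d + 2) :=
      pow_le_pow_of_le_one (by norm_num) (by norm_num) (by omega)
    have h4 := d_half_le (d := d) (k := ⌈s⌉₊ + d + 2) (s := s) (by push_cast; linarith)
    have h5 : (d : ℝ) * (3 / 2 * (1 / 2) ^ n) ≤ d * (3 / 2 * (1 / 2) ^ (⌈s⌉₊ + d + 2)) :=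
      mul_le_mul_of_nonneg_left (by linarith) (by positivity)
    have h6 : (0 : ℝ) < (2 : ℝ) ^ (-s) := by positivity
    linarith

/-- Lower bound for the whole block `m` at its first point. -/
theorem lower_block (h : CondJ d φL φA) {m : ℕ} (hm : 0 < m) {s t : ℝ} (hs : s + d + 2 ≤ m)
    (hT : m + 1 + 2 ≤ ⌈t⌉₊) :
    2 ^ (gN φL φA m (⌈t⌉₊ - 2) - gN φL φA m (m + 1)) ≤
      covN ((2 : ℝ) ^ (-t)) (Metric.closedBall (vec m ∅ : EuclideanSpace ℝ (Fin d))
        ((2 : ℝ) ^ (-s)) ∩ FS d φL φA) := by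
  have hr0 : (0 : ℝ) < (2 : ℝ) ^ (-t) := by positivity
  have ht0 : 0 ≤ t := by
    by_contra hneg
    have : ⌈t⌉₊ = 0 := Nat.ceil_eq_zero.mpr (by linarith)
    omega
  have hr : 2 * (2 : ℝ) ^ (-t) < (1 / 2) ^ (⌈t⌉₊ - 2) := by
    have h1 : (2 : ℝ) * (2 : ℝ) ^ (-t) = (2 : ℝ) ^ (-(t - 1)) := by
      rw [show -(t - 1) = 1 + -t by ring, Real.rpow_add (by norm_num), Real.rpow_one]
    rw [h1, half_pow]
    refine Real.rpow_lt_rpow_of_exponent_lt (by norm_num) ?_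
    rw [Nat.cast_sub (by omega)]
    have := Nat.ceil_lt_add_one ht0
    push_cast
    linarith
  refine many_points h hm le_rfl (by omega) (S0 := ∅) (allowed_empty _)
    (fun p hp => absurd hp (Finset.notMem_empty p)) hr0 hr
    (Metric.isBounded_closedBall.subset Set.inter_subset_left) ?_
  intro S' hS' _
  refine ⟨?_, m, hm, S', hS', rfl⟩
  rw [Metric.mem_closedBall]
  refine (dist_le_norm_add_norm _ _).trans ?_
  have h1 := norm_vec_le hS'
  have h2 := norm_vec_le (allowed_empty (φL := φL) (φA := φA) (d := d) m)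
  have h4 := d_half_le (d := d) (k := m) (s := s) hs
  have h6 : (0 : ℝ) < (2 : ℝ) ^ (-s) := by positivity
  linarith

end Pool.Agent.R165.Spec
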