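import Pool.Agent.R165.Spec.D

/-!
# Bounds of the covering numbers in terms of the spectra
-/

namespace Pool.Agent.R165.Spec

open Finset

variable {d : ℕ} {φL φA : ℝ → ℝ}

theorem two_rpow_le {a b : ℝ} (h : a ≤ b) : (2 : ℝ) ^ a ≤ (2 : ℝ) ^ b :=
  Real.rpow_le_rpow_of_exponent_le (by norm_num) h

theorem pow_nat_le {k : ℕ} {b : ℝ} (h : (k : ℝ) ≤ b) : (2 : ℝ) ^ k ≤ (2 : ℝ) ^ b := by
  rw [← Real.rpow_natCast]
  exact two_rpow_le h

theorem le_pow_nat {k : ℕ} {b : ℝ} (h : b ≤ (k : ℝ)) : (2 : ℝ) ^ b ≤ (2 : ℝ) ^ k := by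
  rw [← Real.rpow_natCast]
  exact two_rpow_le h

/-- `gN` at the upper level is bounded by `G` at `t`. -/
theorem gN_up (h : CondJ d φL φA) {n : ℕ} (hn : 0 < n) {t : ℝ} (ht : (n : ℝ) ≤ t) :
    (gN φL φA n (up d t) : ℝ) ≤ G (fn φL φA n) n t + d * (d + 3) := by
  have hn' : (0 : ℝ) < n := by exact_mod_cast hn
  have hb := up_bounds d (hn'.le.trans ht)
  have hd0 : (0 : ℝ) ≤ d := by positivity
  have hnu : n ≤ up d t := by
    have : (n : ℝ) ≤ up d t := by linarith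
    exact_mod_cast this
  have h1 := gN_le h hn hnu
  have h2 := G_lip h (fn_good h n) (n := n) (s := t) (t := up d t) hn' ht (by linarith)
  have h3 : (d : ℝ) * (up d t - t) ≤ d * (d + 3) := mul_le_mul_of_nonneg_left (by linarith) hd0
  linarith

/-- `gN` at the lower level is at least `G` at `t` minus a constant. -/
theorem gN_low (h : CondJ d φL φA) {n : ℕ} (hn : 0 < n) {t : ℝ} (hT : n + 2 ≤ ⌈t⌉₊) :
    G (fn φL φA n) n t ≤ (gN φL φA n (⌈t⌉₊ - 2) : ℝ) + 1 + 2 * d := by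
  have hn' : (0 : ℝ) < n := by exact_mod_cast hn
  have ht0 : 0 ≤ t := by
    by_contra hneg
    have : ⌈t⌉₊ = 0 := Nat.ceil_eq_zero.mpr (by linarith)
    omega
  have h1 := (lt_gN (φL := φL) (φA := φA) n (⌈t⌉₊ - 2)).le
  have hle := Nat.le_ceil t
  have hlt := Nat.ceil_lt_add_one ht0
  have hcast : ((⌈t⌉₊ - 2 : ℕ) : ℝ) = (⌈t⌉₊ : ℝ) - 2 := by
    rw [Nat.cast_sub (by omega)]
    norm_num
  have hnl : (n : ℝ) ≤ ((⌈t⌉₊ - 2 : ℕ) : ℝ) := by exact_mod_cast (by omega : n ≤ ⌈t⌉₊ - 2)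
  have h2 := G_lip h (fn_good h n) (n := n) (s := ((⌈t⌉₊ - 2 : ℕ) : ℝ)) (t := t) hn' hnl
    (by rw [hcast]; linarith)
  have h3 : (d : ℝ) * (t - ((⌈t⌉₊ - 2 : ℕ) : ℝ)) ≤ d * 2 := by
    refine mul_le_mul_of_nonneg_left ?_ (by positivity)
    rw [hcast]
    linarith
  linarith

/-- Small balls: exponent. -/
theorem exp_small (h : CondJ d φL φA) {n : ℕ} (hn : 0 < n) {s t : ℝ} (hs : (n : ℝ) + 2 < s)
    (hst : s ≤ t) : ((gN φL φA n (up d t) - gN φL φA n ⌊s⌋₊ : ℕ) : ℝ) ≤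
      t * φA (s / t) + (d * (d + 4) + 1) := by
  have hn' : (0 : ℝ) < n := by exact_mod_cast hn
  have hs0 : 0 ≤ s := by linarith
  have h1 := gN_up h hn (t := t) (by linarith)
  have hfl : n + 2 ≤ ⌊s⌋₊ := Nat.le_floor (by push_cast; linarith)
  have hfl' : (n : ℝ) ≤ (⌊s⌋₊ : ℝ) := by exact_mod_cast (by omega : n ≤ ⌊s⌋₊)
  have hfs := Nat.floor_le hs0
  have hlf := Nat.lt_floor_add_one s
  have h2 := (lt_gN (φL := φL) (φA := φA) n ⌊s⌋₊).le
  have h3 := G_lip h (fn_good h n) (n := n) (s := (⌊s⌋₊ : ℝ)) (t := s) hn' hfl' hfs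
  have h4 : (d : ℝ) * (s - (⌊s⌋₊ : ℝ)) ≤ d * 1 :=
    mul_le_mul_of_nonneg_left (by linarith) (by positivity)
  have h5 := (G_diff (fn_good h n) hn' (by linarith : (n : ℝ) ≤ s) hst).2
  have hup := up_bounds d (hs0.trans hst)
  have hle : ⌊s⌋₊ ≤ up d t := by
    have : (⌊s⌋₊ : ℝ) ≤ up d t := by
      have : (0 : ℝ) ≤ d := by positivity
      linarith
    exact_mod_cast this
  rw [Nat.cast_sub (gN_mono h hn (by omega) hle)]
  nlinarith

/-- Large balls: exponent. -/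
theorem exp_big (h : CondJ d φL φA) {m : ℕ} (hm : 0 < m) {s t : ℝ} (hs0 : 0 < s) (hst : s ≤ t)
    (hmT : m ≤ up d t) (hms : s - 3 ≤ m) :
    (gN φL φA m (up d t) : ℝ) ≤ t * φA (s / t) + (d * (2 * d + 9)) := by
  have hm' : (0 : ℝ) < m := by exact_mod_cast hm
  have ht0 : 0 < t := hs0.trans_le hst
  have hup := up_bounds d ht0.le
  set T : ℝ := (up d t : ℝ) with hT
  have hd0 : (0 : ℝ) ≤ d := by positivity
  have hmT' : (m : ℝ) ≤ T := by
    rw [hT]
    exact_mod_cast hmT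
  have hT0 : 0 < T := hm'.trans_le hmT'
  have hst' := div_mem' hs0 hst
  have hmT2 := div_mem' hm' hmT'
  have h1 := gN_le h hm hmT
  have h2 := G_le (fn_good h m) hm' hmT'
  have h3 : T * φA (m / T) ≤ T * φA (s / t) + d * (d + 3 + 3) := by
    rcases le_or_gt (s / t) (m / T) with hle | hlt
    · have h4 := mul_le_mul_of_nonneg_left (h.antiA hst' hmT2 hle) hT0.le
      have : (0 : ℝ) ≤ d * (d + 3 + 3) := by positivity
      linarith
    · have h4 := h.lip _ hmT2 _ hst'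
      have h5 := (abs_le.mp h4).2
      rw [abs_sub_comm, abs_of_pos (by linarith)] at h5
      have h6 : T * (s / t - m / T) ≤ d + 3 + 3 := by
        have h7 : T * (s / t - m / T) = s * (T / t) - m := by field_simp
        have h8 : T / t ≤ 1 + (d + 3) / t := by
          rw [div_le_iff₀ ht0]
          have : (1 + ((d : ℝ) + 3) / t) * t = t + (d + 3) := by field_simp
          rw [this]
          linarith
        have h9 : s * (T / t) ≤ s + (d + 3) := by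
          have h10 := mul_le_mul_of_nonneg_left h8 hs0.le
          have h11 : s * (1 + ((d : ℝ) + 3) / t) = s + (s / t) * (d + 3) := by
            field_simp
          have h12 : (s / t) * ((d : ℝ) + 3) ≤ 1 * (d + 3) :=
            mul_le_mul_of_nonneg_right hst'.2 (by positivity)
          linarith
        rw [h7]
        linarith
      have h7 : T * φA (m / T) ≤ T * (φA (s / t) + d * (s / t - m / T)) :=
        mul_le_mul_of_nonneg_left (by linarith) hT0.le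
      have h8 : (d : ℝ) * (T * (s / t - m / T)) ≤ d * (d + 3 + 3) :=
        mul_le_mul_of_nonneg_left h6 hd0
      have h9 : T * (φA (s / t) + d * (s / t - m / T)) =
          T * φA (s / t) + d * (T * (s / t - m / T)) := by ring
      linarith
  have h4 : (T - t) * φA (s / t) ≤ (d + 3) * d := by
    have h5 := h.rangeA _ hst'
    exact mul_le_mul (by linarith) h5.2 h5.1 (by positivity)
  nlinarith

/-- The comparison of `φL` at nearby arguments. -/
theorem L_shift (h : CondJ d φL φA) {a b t c : ℝ} (ha : 0 < a) (hab : a ≤ b) (hbt : b ≤ t)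
    (hc : b - a ≤ c) (hc0 : 0 ≤ c) : t * φL (a / t) ≤ t * φL (b / t) + d * c * (t / b) := by
  have hb0 : 0 < b := ha.trans_le hab
  have ht0 : 0 < t := hb0.trans_le hbt
  have h1 := h.eL (div_mem' ha (hab.trans hbt)) (div_mem' hb0 hbt)
    (div_le_div_of_nonneg_right hab ht0.le)
  have h2 := mul_le_mul_of_nonneg_left h1 ht0.le
  have h3 : t * (d * ((b / t - a / t) / (b / t))) = d * (b - a) * (t / b) := by
    field_simp
  have h4 : (d : ℝ) * (b - a) * (t / b) ≤ d * c * (t / b) := by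
    refine mul_le_mul_of_nonneg_right ?_ (by positivity)
    exact mul_le_mul_of_nonneg_left hc (by positivity)
  linarith

/-- The comparison of `φA` at nearby arguments. -/
theorem A_shift (h : CondJ d φL φA) {a b t c : ℝ} (ha : 0 < a) (hab : a ≤ b) (hbt : b ≤ t)
    (hc : b - a ≤ c) : t * φA (a / t) ≤ t * φA (b / t) + d * c := by
  have hb0 : 0 < b := ha.trans_le hab
  have ht0 : 0 < t := hb0.trans_le hbt
  have h1 := h.lip _ (div_mem' ha (hab.trans hbt)) _ (div_mem' hb0 hbt)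
  have h2 := (abs_le.mp h1).2
  have h5 : a / t ≤ b / t := div_le_div_of_nonneg_right hab ht0.le
  rw [abs_sub_comm, abs_of_nonneg (by linarith)] at h2
  have h3 := mul_le_mul_of_nonneg_left h2 ht0.le
  have h4 : t * (d * (b / t - a / t)) = d * (b - a) := by field_simp
  have h6 : (d : ℝ) * (b - a) ≤ d * c := mul_le_mul_of_nonneg_left hc (by positivity)
  linarith

variable (d) in
/-- The constant of the upper bound. -/
noncomputable def KU : ℝ := d * (2 * d + 9) + 1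

/-- Uniform upper bound. -/
theorem upper (h : CondJ d φL φA) (hd : 0 < d) {x : EuclideanSpace ℝ (Fin d)}
    (hx : x ∈ FS d φL φA) {θ t : ℝ} (hθ : 0 < θ) (hθ1 : θ < 1) (ht : 0 < t) :
    (covN ((2 : ℝ) ^ (-t)) (Metric.closedBall x ((2 : ℝ) ^ (-(θ * t))) ∩ FS d φL φA) : ℝ) ≤
      (5 ^ d + 1 + (t + d + 3)) * (2 : ℝ) ^ (t * φA θ + KU d) := by
  obtain ⟨n, hn, hx⟩ := hx
  have hd0 : (0 : ℝ) ≤ d := by positivity
  set s := θ * t with hs
  have hs0 : 0 < s := mul_pos hθ ht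
  have hst : s ≤ t := by
    rw [hs]
    nlinarith
  have hst' : s / t = θ := by
    rw [hs]
    field_simp
  have hexp0 : 0 ≤ t * φA θ + KU d := by
    have := (h.rangeA θ ⟨hθ, hθ1.le⟩).1
    unfold KU
    positivity
  have hone : (1 : ℝ) ≤ (2 : ℝ) ^ (t * φA θ + KU d) := Real.one_le_rpow (by norm_num) hexp0
  have hpos : (0 : ℝ) < (2 : ℝ) ^ (t * φA θ + KU d) := by positivity
  have h5 : (0 : ℝ) < 5 ^ d := by positivity
  rcases lt_or_ge ((n : ℝ) + 2) s with hcase | hcase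
  · have h1 := upper_small h hd hn hx hcase hst
    have h2 : (covN ((2 : ℝ) ^ (-t)) (Metric.closedBall x ((2 : ℝ) ^ (-s)) ∩ FS d φL φA) : ℝ) ≤
        5 ^ d * 2 ^ (gN φL φA n (up d t) - gN φL φA n ⌊s⌋₊) := by exact_mod_cast h1
    have h3 := exp_small h hn hcase hst
    rw [hst'] at h3
    have h4 : (2 : ℝ) ^ (gN φL φA n (up d t) - gN φL φA n ⌊s⌋₊) ≤
        (2 : ℝ) ^ (t * φA θ + KU d) := by
      refine pow_nat_le (h3.trans ?_)
      unfold KU
      nlinarith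
    nlinarith
  · have h1 := upper_big h hd hx hcase ht.le
    have h2 : (covN ((2 : ℝ) ^ (-t)) (Metric.closedBall x ((2 : ℝ) ^ (-s)) ∩ FS d φL φA) : ℝ) ≤
        1 + ∑ m ∈ (Finset.Icc 1 (up d t)).filter (fun m : ℕ => s - 3 ≤ m),
          (2 : ℝ) ^ gN φL φA m (up d t) := by exact_mod_cast h1
    have h3 : ∑ m ∈ (Finset.Icc 1 (up d t)).filter (fun m : ℕ => s - 3 ≤ m),
          (2 : ℝ) ^ gN φL φA m (up d t) ≤
        ∑ _m ∈ (Finset.Icc 1 (up d t)).filter (fun m : ℕ => s - 3 ≤ m),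
          (2 : ℝ) ^ (t * φA θ + KU d) := by
      refine Finset.sum_le_sum fun m hm => ?_
      rw [Finset.mem_filter, Finset.mem_Icc] at hm
      have h4 := exp_big h hm.1.1 hs0 hst hm.1.2 hm.2
      rw [hst'] at h4
      refine pow_nat_le (h4.trans ?_)
      unfold KU
      linarith
    rw [Finset.sum_const, nsmul_eq_mul] at h3
    have h4 : (((Finset.Icc 1 (up d t)).filter (fun m : ℕ => s - 3 ≤ m)).card : ℝ) ≤ t + d + 3 := by
      have h5 : ((Finset.Icc 1 (up d t)).filter (fun m : ℕ => s - 3 ≤ m)).card ≤ up d t := by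
        refine (Finset.card_filter_le _ _).trans ?_
        simp
      have h6 : (((Finset.Icc 1 (up d t)).filter (fun m : ℕ => s - 3 ≤ m)).card : ℝ) ≤ up d t := by
        exact_mod_cast h5
      exact h6.trans (up_bounds d ht.le).2.le
    have h6 := mul_le_mul_of_nonneg_right h4 hpos.le
    nlinarith

/-- Uniform lower bound for large `t`. -/
theorem lower (h : CondJ d φL φA) {x : EuclideanSpace ℝ (Fin d)}
    (hx : x ∈ FS d φL φA) {θ t : ℝ} (hθ : 0 < θ) (hθ1 : θ < 1) (ht : (d + 7) / (1 - θ) ≤ t) :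
    (2 : ℝ) ^ (t * φL θ - (d * (d + 4) / θ + 1 + 2 * d)) ≤
    (covN ((2 : ℝ) ^ (-t)) (Metric.closedBall x ((2 : ℝ) ^ (-(θ * t))) ∩ FS d φL φA) : ℝ) := by
  obtain ⟨n, hn, hx⟩ := hx
  have hd0 : (0 : ℝ) ≤ d := by positivity
  have h1θ : 0 < 1 - θ := by linarith
  have ht0 : 0 < t := lt_of_lt_of_le (by positivity) ht
  set s := θ * t with hs
  have hs0 : 0 < s := mul_pos hθ ht0
  have hst' : s / t = θ := by
    rw [hs]
    field_simp
  rw [div_le_iff₀ h1θ] at ht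
  have hcs := Nat.ceil_lt_add_one hs0.le
  have hsc := Nat.le_ceil s
  have hct := Nat.le_ceil t
  have hT : ⌈s⌉₊ + d + 3 + 2 ≤ ⌈t⌉₊ := by
    have : ((⌈s⌉₊ + d + 3 + 2 : ℕ) : ℝ) ≤ (⌈t⌉₊ : ℝ) := by
      push_cast
      have : s = t - (1 - θ) * t := by rw [hs]; ring
      nlinarith
    exact_mod_cast this
  obtain ⟨m, w, hm, hmw, hw, hN⟩ := lower_gen h hn hx hs0 hT
  have hN' : (2 : ℝ) ^ (gN φL φA m (⌈t⌉₊ - 2) - gN φL φA m w) ≤
    (covN ((2 : ℝ) ^ (-t)) (Metric.closedBall x ((2 : ℝ) ^ (-s)) ∩ FS d φL φA) : ℝ) := by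
    exact_mod_cast hN
  refine le_trans (le_pow_nat ?_) hN'
  have hm' : (0 : ℝ) < m := by exact_mod_cast hm
  have hwr : (w : ℝ) = ⌈s⌉₊ + d + 3 := by
    rw [hw]
    push_cast
    ring
  have hmw' : (m : ℝ) ≤ w := by exact_mod_cast (by omega : m ≤ w)
  have hwt : (w : ℝ) ≤ t := by
    rw [hwr]
    have : s = t - (1 - θ) * t := by rw [hs]; ring
    nlinarith
  have h1 := gN_low h hm (t := t) (by omega)
  have h2 := gN_le h hm (by omega : m ≤ w)
  have h3 := (G_diff (fn_good h m) hm' hmw' hwt).1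
  have h4 := L_shift h (a := s) (b := w) (t := t) (c := d + 4) hs0 (by rw [hwr]; linarith) hwt
    (by rw [hwr]; linarith) (by positivity)
  rw [hst'] at h4
  have h5 : (d : ℝ) * (d + 4) * (t / w) ≤ d * (d + 4) / θ := by
    rw [div_eq_mul_inv _ θ]
    refine mul_le_mul_of_nonneg_left ?_ (by positivity)
    rw [div_le_iff₀ (hm'.trans_le hmw'), inv_mul_eq_div, le_div_iff₀ hθ, mul_comm]
    rw [← hs, hwr]
    linarith
  have hle : w ≤ ⌈t⌉₊ - 2 := by omega
  rw [Nat.cast_sub (gN_mono h hm (by omega) hle)]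
  linarith

/-- The upper bound is attained. -/
theorem attained_upper (h : CondJ d φL φA) {θ t : ℝ} (hθ : 0 < θ) (hθ1 : θ < 1)
    (ht : (d + 8) / (1 - θ) ≤ t) :
    ∃ x ∈ FS d φL φA, (2 : ℝ) ^ (t * φA θ - (d * (d + 4) + 1 + 3 * d)) ≤
    (covN ((2 : ℝ) ^ (-t)) (Metric.closedBall x ((2 : ℝ) ^ (-(θ * t))) ∩ FS d φL φA) : ℝ) := by
  have hd0 : (0 : ℝ) ≤ d := by positivity
  have h1θ : 0 < 1 - θ := by linarith
  have ht0 : 0 < t := lt_of_lt_of_le (by positivity) ht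
  set s := θ * t with hs
  have hs0 : 0 < s := mul_pos hθ ht0
  have hst' : s / t = θ := by
    rw [hs]
    field_simp
  rw [div_le_iff₀ h1θ] at ht
  have hcs := Nat.ceil_lt_add_one hs0.le
  have hsc := Nat.le_ceil s
  have hct := Nat.le_ceil t
  have hseq : s = t - (1 - θ) * t := by rw [hs]; ring
  obtain ⟨m, hme, hm1, hm2⟩ : ∃ m : ℕ, Even m ∧ ⌈s⌉₊ + d + 2 ≤ m ∧ m ≤ ⌈s⌉₊ + d + 3 := by
    rcases Nat.even_or_odd (⌈s⌉₊ + d + 2) with he | ho
    · exact ⟨_, he, le_rfl, by omega⟩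
    · exact ⟨_, ho.add_one, by omega, le_rfl⟩
  have hm : 0 < m := by omega
  have hm' : (0 : ℝ) < m := by exact_mod_cast hm
  have hm1' : (⌈s⌉₊ : ℝ) + d + 2 ≤ m := by exact_mod_cast hm1
  have hm2' : (m : ℝ) ≤ ⌈s⌉₊ + d + 3 := by exact_mod_cast hm2
  have hT : m + 1 + 2 ≤ ⌈t⌉₊ := by
    have : ((m + 1 + 2 : ℕ) : ℝ) ≤ (⌈t⌉₊ : ℝ) := by
      push_cast
      nlinarith
    exact_mod_cast this
  refine ⟨vec m ∅, ⟨m, hm, ∅, allowed_empty m, rfl⟩, ?_⟩
  have hN := lower_block h hm (s := s) (t := t) (by linarith) hT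
  have hN' : (2 : ℝ) ^ (gN φL φA m (⌈t⌉₊ - 2) - gN φL φA m (m + 1)) ≤
    (covN ((2 : ℝ) ^ (-t)) (Metric.closedBall (vec m ∅ : EuclideanSpace ℝ (Fin d))
      ((2 : ℝ) ^ (-s)) ∩ FS d φL φA) : ℝ) := by
    exact_mod_cast hN
  refine le_trans (le_pow_nat ?_) hN'
  have hmt : (m : ℝ) ≤ t := by nlinarith
  have h1 := gN_low h hm (t := t) (by omega)
  have h2 := gN_le h hm (Nat.le_succ m)
  have h3 := G_lip h (fn_good h m) (n := m) (s := m) (t := ((m + 1 : ℕ) : ℝ)) hm' le_rfl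
    (by push_cast; linarith)
  rw [G_self (fn_good h m) hm'] at h3
  have h4 : G (fn φL φA m) m t = t * φA (m / t) := by
    unfold G fn
    rw [if_pos hme]
  have h5 := A_shift h (a := s) (b := m) (t := t) (c := d + 4) hs0 (by linarith) hmt
    (by linarith)
  rw [hst'] at h5
  have hle : m + 1 ≤ ⌈t⌉₊ - 2 := by omega
  rw [Nat.cast_sub (gN_mono h hm (by omega) hle)]
  have h6 : ((m + 1 : ℕ) : ℝ) - m = 1 := by push_cast; ring
  rw [h6] at h3
  change (gN φL φA m (m + 1) : ℝ) ≤ _ at h2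
  have h7 : G (fn φL φA m) m (m.succ : ℕ) = G (fn φL φA m) m ((m + 1 : ℕ) : ℝ) := rfl
  rw [h7] at h2
  linarith

/-- The lower bound is attained. -/
theorem attained_lower (h : CondJ d φL φA) (hd : 0 < d) {θ t : ℝ} (hθ : 0 < θ) (hθ1 : θ < 1)
    (ht : 6 / θ < t) :
    ∃ x ∈ FS d φL φA,
    (covN ((2 : ℝ) ^ (-t)) (Metric.closedBall x ((2 : ℝ) ^ (-(θ * t))) ∩ FS d φL φA) : ℝ) ≤
      5 ^ d * (2 : ℝ) ^ (t * φL θ + (5 * d / θ + d * (d + 3))) := by
  have hd0 : (0 : ℝ) ≤ d := by positivity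
  have ht0 : 0 < t := lt_trans (by positivity) ht
  set s := θ * t with hs
  have hs0 : 0 < s := mul_pos hθ ht0
  have hst' : s / t = θ := by
    rw [hs]
    field_simp
  have hst : s ≤ t := by
    rw [hs]
    nlinarith
  rw [div_lt_iff₀ hθ] at ht
  have hs6 : 6 < s := by
    rw [hs]
    linarith
  have hcs := Nat.ceil_lt_add_one hs0.le
  have hsc := Nat.le_ceil s
  -- an odd `n` in `[s - 5, s - 2)`
  obtain ⟨n, hno, hn1, hn2⟩ : ∃ n : ℕ, Odd n ∧ n + 3 ≤ ⌈s⌉₊ ∧ ⌈s⌉₊ ≤ n + 4 := by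
    have h7 : 7 ≤ ⌈s⌉₊ := by
      have : (6 : ℝ) < ⌈s⌉₊ := hs6.trans_le hsc
      have : 6 < ⌈s⌉₊ := by exact_mod_cast this
      omega
    rcases Nat.even_or_odd (⌈s⌉₊ - 3) with he | ho
    · refine ⟨⌈s⌉₊ - 4, ?_, by omega, by omega⟩
      have h8 : ⌈s⌉₊ - 3 = (⌈s⌉₊ - 4) + 1 := by omega
      rw [h8, Nat.even_add_one, Nat.not_even_iff_odd] at he
      exact he
    · exact ⟨_, ho, by omega, by omega⟩
  have hn : 0 < n := hno.pos
  have hn' : (0 : ℝ) < n := by exact_mod_cast hn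
  have hn1' : (n : ℝ) + 3 ≤ ⌈s⌉₊ := by exact_mod_cast hn1
  have hn2' : (⌈s⌉₊ : ℝ) ≤ n + 4 := by exact_mod_cast hn2
  refine ⟨vec n ∅, ⟨n, hn, ∅, allowed_empty n, rfl⟩, ?_⟩
  have hx : (vec n ∅ : EuclideanSpace ℝ (Fin d)) ∈ Blk d φL φA n := ⟨∅, allowed_empty n, rfl⟩
  have h1 := upper_small h hd hn hx (s := s) (t := t) (by linarith) hst
  have h2 : (covN ((2 : ℝ) ^ (-t)) (Metric.closedBall (vec n ∅ : EuclideanSpace ℝ (Fin d))
      ((2 : ℝ) ^ (-s)) ∩ FS d φL φA) : ℝ) ≤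
        5 ^ d * 2 ^ (gN φL φA n (up d t) - gN φL φA n ⌊s⌋₊) := by exact_mod_cast h1
  refine h2.trans (mul_le_mul_of_nonneg_left (pow_nat_le ?_) (by positivity))
  have h3 : ((gN φL φA n (up d t) - gN φL φA n ⌊s⌋₊ : ℕ) : ℝ) ≤ gN φL φA n (up d t) := by
    exact_mod_cast Nat.sub_le _ _
  have h4 := gN_up h hn (t := t) (by linarith)
  have h5 : G (fn φL φA n) n t = t * φL (n / t) := by
    unfold G fn
    rw [if_neg (Nat.not_even_iff_odd.mpr hno)]
  have h6 := L_shift h (a := n) (b := s) (t := t) (c := 5) hn' (by linarith) hst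
    (by linarith) (by norm_num)
  rw [hst'] at h6
  have h7 : (d : ℝ) * 5 * (t / s) = 5 * d / θ := by
    rw [hs]
    field_simp
  linarith

end Pool.Agent.R165.Spec
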