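import Pool.Agent.R165.Spec.E

/-!
# The spectra
-/

namespace Pool.Agent.R165.Spec

open Set Metric

variable {d : ℕ}

/-- Lower spectrum. -/
noncomputable def dimL (θ : ℝ) (F : Set (EuclideanSpace ℝ (Fin d))) : ℝ :=
  sSup {s : ℝ | 0 ≤ s ∧ ∃ C : ℝ, 0 < C ∧ ∀ r : ℝ, 0 < r → r < 1 →
    ∀ x ∈ F, C * (r ^ θ / r) ^ s ≤ (covN r (closedBall x (r ^ θ) ∩ F) : ℝ)}

/-- Assouad spectrum. -/
noncomputable def dimA (θ : ℝ) (F : Set (EuclideanSpace ℝ (Fin d))) : ℝ :=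
  sInf {s : ℝ | 0 ≤ s ∧ ∃ C : ℝ, 0 < C ∧ ∀ r : ℝ, 0 < r → r < 1 →
    ∀ x ∈ F, (covN r (closedBall x (r ^ θ) ∩ F) : ℝ) ≤ C * (r ^ θ / r) ^ s}

/-- Covering number at scale `t`. -/
noncomputable def N (θ : ℝ) (F : Set (EuclideanSpace ℝ (Fin d))) (t : ℝ)
    (x : EuclideanSpace ℝ (Fin d)) : ℝ :=
  (covN ((2 : ℝ) ^ (-t)) (closedBall x ((2 : ℝ) ^ (-(θ * t))) ∩ F) : ℝ)

theorem conv1 (θ t : ℝ) : ((2 : ℝ) ^ (-t)) ^ θ = (2 : ℝ) ^ (-(θ * t)) := by
  rw [← Real.rpow_mul (by norm_num)]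
  congr 1
  ring

theorem conv2 (θ t s : ℝ) :
    (((2 : ℝ) ^ (-t)) ^ θ / (2 : ℝ) ^ (-t)) ^ s = (2 : ℝ) ^ ((1 - θ) * s * t) := by
  rw [conv1, ← Real.rpow_sub (by norm_num), ← Real.rpow_mul (by norm_num)]
  congr 1
  ring

theorem scale {r : ℝ} (h0 : 0 < r) (h1 : r < 1) : ∃ t : ℝ, 0 < t ∧ (2 : ℝ) ^ (-t) = r := by
  refine ⟨-Real.logb 2 r, ?_, ?_⟩
  · have := Real.logb_neg (b := 2) (by norm_num) h0 h1
    linarith
  · rw [neg_neg]
    exact Real.rpow_logb (by norm_num) (by norm_num) h0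

theorem scale' {t : ℝ} (ht : 0 < t) : (2 : ℝ) ^ (-t) < 1 :=
  Real.rpow_lt_one_of_one_lt_of_neg (by norm_num) (by linarith)

theorem memA {θ s : ℝ} {F : Set (EuclideanSpace ℝ (Fin d))} :
    s ∈ {s : ℝ | 0 ≤ s ∧ ∃ C : ℝ, 0 < C ∧ ∀ r : ℝ, 0 < r → r < 1 →
    ∀ x ∈ F, (covN r (closedBall x (r ^ θ) ∩ F) : ℝ) ≤ C * (r ^ θ / r) ^ s} ↔
    0 ≤ s ∧ ∃ C : ℝ, 0 < C ∧ ∀ t : ℝ, 0 < t → ∀ x ∈ F,
      N θ F t x ≤ C * (2 : ℝ) ^ ((1 - θ) * s * t) := by
  constructor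
  · rintro ⟨hs, C, hC, h⟩
    refine ⟨hs, C, hC, fun t ht x hx => ?_⟩
    have h1 := h ((2 : ℝ) ^ (-t)) (by positivity) (scale' ht) x hx
    rw [conv2, conv1] at h1
    exact h1
  · rintro ⟨hs, C, hC, h⟩
    refine ⟨hs, C, hC, fun r h0 h1 x hx => ?_⟩
    obtain ⟨t, ht, rfl⟩ := scale h0 h1
    rw [conv2, conv1]
    exact h t ht x hx

theorem memL {θ s : ℝ} {F : Set (EuclideanSpace ℝ (Fin d))} :
    s ∈ {s : ℝ | 0 ≤ s ∧ ∃ C : ℝ, 0 < C ∧ ∀ r : ℝ, 0 < r → r < 1 →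
    ∀ x ∈ F, C * (r ^ θ / r) ^ s ≤ (covN r (closedBall x (r ^ θ) ∩ F) : ℝ)} ↔
    0 ≤ s ∧ ∃ C : ℝ, 0 < C ∧ ∀ t : ℝ, 0 < t → ∀ x ∈ F,
      C * (2 : ℝ) ^ ((1 - θ) * s * t) ≤ N θ F t x := by
  constructor
  · rintro ⟨hs, C, hC, h⟩
    refine ⟨hs, C, hC, fun t ht x hx => ?_⟩
    have h1 := h ((2 : ℝ) ^ (-t)) (by positivity) (scale' ht) x hx
    rw [conv2, conv1] at h1
    exact h1
  · rintro ⟨hs, C, hC, h⟩
    refine ⟨hs, C, hC, fun r h0 h1 x hx => ?_⟩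
    obtain ⟨t, ht, rfl⟩ := scale h0 h1
    rw [conv2, conv1]
    exact h t ht x hx

/-- `2 ^ y ≥ 1 + y log 2`. -/
theorem two_rpow_ge (y : ℝ) : 1 + y * Real.log 2 ≤ (2 : ℝ) ^ y := by
  rw [Real.rpow_def_of_pos (by norm_num)]
  have := Real.add_one_le_exp (Real.log 2 * y)
  linarith

theorem log2_pos : 0 < Real.log 2 := Real.log_pos (by norm_num)

/-- An exponential cannot be bounded. -/
theorem no_bound {η M T : ℝ} (hη : 0 < η) (h : ∀ t, T < t → 0 < t → (2 : ℝ) ^ (η * t) ≤ M) :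
    False := by
  have hl := log2_pos
  obtain ⟨t, ht1, ht2, ht3⟩ : ∃ t : ℝ, T < t ∧ 0 < t ∧ M < 1 + η * t * Real.log 2 := by
    refine ⟨max (T + 1) (max 1 (|M| / (η * Real.log 2))), ?_, ?_, ?_⟩
    · exact lt_of_lt_of_le (by linarith) (le_max_left _ _)
    · exact lt_of_lt_of_le one_pos ((le_max_left _ _).trans (le_max_right _ _))
    · have h1 : |M| / (η * Real.log 2) ≤ max (T + 1) (max 1 (|M| / (η * Real.log 2))) :=
        (le_max_right _ _).trans (le_max_right _ _)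
      rw [div_le_iff₀ (by positivity)] at h1
      have h2 := le_abs_self M
      nlinarith
  have h1 := h t ht1 ht2
  have h2 := two_rpow_ge (η * t)
  linarith

theorem one_le_N {θ t : ℝ} {F : Set (EuclideanSpace ℝ (Fin d))} {x : EuclideanSpace ℝ (Fin d)}
    (hx : x ∈ F) : 1 ≤ N θ F t x := by
  have h1 := le_covN (r := (2 : ℝ) ^ (-t)) (by positivity)
    (E := closedBall x ((2 : ℝ) ^ (-(θ * t))) ∩ F) (isBounded_closedBall.subset inter_subset_left)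
    {x} (by
      intro y hy
      rw [Finset.mem_singleton] at hy
      rw [hy]
      exact ⟨mem_closedBall_self (by positivity), hx⟩)
    (by
      intro y hy z hz hne
      rw [Finset.mem_singleton] at hy hz
      exact absurd (hy.trans hz.symm) hne)
  rw [Finset.card_singleton] at h1
  unfold N
  exact_mod_cast h1

theorem dimA_eq {F : Set (EuclideanSpace ℝ (Fin d))} {θ b K T : ℝ} (hθ1 : θ < 1) (hb : 0 ≤ b)
    (hK : 0 ≤ K)
    (hU : ∀ t, 0 < t → ∀ x ∈ F, N θ F t x ≤ (K + t) * (2 : ℝ) ^ (t * b + K))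
    (hA : ∀ t, T < t → 0 < t → ∃ x ∈ F, (2 : ℝ) ^ (t * b - K) ≤ N θ F t x) :
    (1 - θ) * dimA θ F = b := by
  have h1θ : 0 < 1 - θ := by linarith
  have hl := log2_pos
  have key : dimA θ F = b / (1 - θ) := by
    unfold dimA
    have hmem : ∀ ε : ℝ, 0 < ε → b / (1 - θ) + ε ∈ {s : ℝ | 0 ≤ s ∧ ∃ C : ℝ, 0 < C ∧
        ∀ r : ℝ, 0 < r → r < 1 →
        ∀ x ∈ F, (covN r (closedBall x (r ^ θ) ∩ F) : ℝ) ≤ C * (r ^ θ / r) ^ s} := by
      intro ε hε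
      rw [memA]
      have hδ : 0 < (1 - θ) * ε * Real.log 2 := by positivity
      refine ⟨by positivity, (2 : ℝ) ^ K * (K + 1 / ((1 - θ) * ε * Real.log 2)), by positivity,
        fun t ht x hx => (hU t ht x hx).trans ?_⟩
      have e1 : (1 - θ) * (b / (1 - θ) + ε) * t = t * b + (1 - θ) * ε * t := by
        field_simp
      rw [e1, Real.rpow_add (by norm_num), Real.rpow_add (by norm_num)]
      have h2 := two_rpow_ge ((1 - θ) * ε * t)
      have h3 : K + t ≤ (K + 1 / ((1 - θ) * ε * Real.log 2)) * (2 : ℝ) ^ ((1 - θ) * ε * t) := by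
        have h4 : (K + 1 / ((1 - θ) * ε * Real.log 2)) * (1 + (1 - θ) * ε * t * Real.log 2) ≤
            (K + 1 / ((1 - θ) * ε * Real.log 2)) * (2 : ℝ) ^ ((1 - θ) * ε * t) :=
          mul_le_mul_of_nonneg_left h2 (by positivity)
        refine le_trans ?_ h4
        have e2 : (K + 1 / ((1 - θ) * ε * Real.log 2)) * (1 + (1 - θ) * ε * t * Real.log 2) =
            K + t + (K * ((1 - θ) * ε * t * Real.log 2) + 1 / ((1 - θ) * ε * Real.log 2)) := by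
          field_simp
          ring
        rw [e2]
        have : 0 ≤ K * ((1 - θ) * ε * t * Real.log 2) + 1 / ((1 - θ) * ε * Real.log 2) := by
          positivity
        linarith
      have h5 : (0 : ℝ) < 2 ^ (t * b) * 2 ^ K := by positivity
      calc (K + t) * (2 ^ (t * b) * 2 ^ K) ≤
          ((K + 1 / ((1 - θ) * ε * Real.log 2)) * (2 : ℝ) ^ ((1 - θ) * ε * t)) *
            (2 ^ (t * b) * 2 ^ K) := mul_le_mul_of_nonneg_right h3 h5.le
        _ = _ := by ring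
    have hbdd : BddBelow {s : ℝ | 0 ≤ s ∧ ∃ C : ℝ, 0 < C ∧
        ∀ r : ℝ, 0 < r → r < 1 →
        ∀ x ∈ F, (covN r (closedBall x (r ^ θ) ∩ F) : ℝ) ≤ C * (r ^ θ / r) ^ s} :=
      ⟨0, fun s hs => hs.1⟩
    refine le_antisymm (le_of_forall_pos_le_add fun ε hε => csInf_le hbdd (hmem ε hε)) ?_
    refine le_csInf ⟨_, hmem 1 one_pos⟩ fun s hs => ?_
    rw [memA] at hs
    obtain ⟨-, C, hC, h⟩ := hs
    by_contra hlt
    rw [not_le, lt_div_iff₀ h1θ] at hlt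
    refine no_bound (η := b - s * (1 - θ)) (M := C * (2 : ℝ) ^ K) (T := T) (by linarith)
      fun t hT ht => ?_
    obtain ⟨x, hx, hx2⟩ := hA t hT ht
    have h2 := hx2.trans (h t ht x hx)
    have e1 : (b - s * (1 - θ)) * t = (t * b - K) + K - (1 - θ) * s * t := by ring
    rw [e1, Real.rpow_sub (by norm_num), Real.rpow_add (by norm_num), div_le_iff₀ (by positivity)]
    have h3 : (0 : ℝ) < (2 : ℝ) ^ K := by positivity
    calc (2 : ℝ) ^ (t * b - K) * 2 ^ K ≤ (C * (2 : ℝ) ^ ((1 - θ) * s * t)) * 2 ^ K :=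
          mul_le_mul_of_nonneg_right h2 h3.le
      _ = _ := by ring
  rw [key]
  field_simp

theorem dimL_eq {F : Set (EuclideanSpace ℝ (Fin d))} {θ a K T : ℝ} (hθ1 : θ < 1) (ha : 0 ≤ a)
    (hL : ∀ t, T ≤ t → 0 < t → ∀ x ∈ F, (2 : ℝ) ^ (t * a - K) ≤ N θ F t x)
    (hA : ∀ t, T < t → 0 < t → ∃ x ∈ F, N θ F t x ≤ (2 : ℝ) ^ (t * a + K)) :
    (1 - θ) * dimL θ F = a := by
  have h1θ : 0 < 1 - θ := by linarith
  have key : dimL θ F = a / (1 - θ) := by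
    unfold dimL
    have hmem : a / (1 - θ) ∈ {s : ℝ | 0 ≤ s ∧ ∃ C : ℝ, 0 < C ∧ ∀ r : ℝ, 0 < r → r < 1 →
        ∀ x ∈ F, C * (r ^ θ / r) ^ s ≤ (covN r (closedBall x (r ^ θ) ∩ F) : ℝ)} := by
      rw [memL]
      refine ⟨by positivity, min ((2 : ℝ) ^ (-K)) ((2 : ℝ) ^ (-(T * a))), by positivity,
        fun t ht x hx => ?_⟩
      have e1 : (1 - θ) * (a / (1 - θ)) * t = t * a := by
        field_simp
      rw [e1]
      rcases le_or_gt T t with hT | hT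
      · refine le_trans ?_ (hL t hT ht x hx)
        have e2 : t * a - K = -K + t * a := by ring
        rw [e2, Real.rpow_add (by norm_num)]
        exact mul_le_mul_of_nonneg_right (min_le_left _ _) (by positivity)
      · refine le_trans ?_ (one_le_N hx)
        have h2 : (2 : ℝ) ^ (t * a) ≤ (2 : ℝ) ^ (T * a) :=
          Real.rpow_le_rpow_of_exponent_le (by norm_num) (mul_le_mul_of_nonneg_right hT.le ha)
        calc min ((2 : ℝ) ^ (-K)) ((2 : ℝ) ^ (-(T * a))) * 2 ^ (t * a)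
            ≤ (2 : ℝ) ^ (-(T * a)) * 2 ^ (T * a) :=
              mul_le_mul (min_le_right _ _) h2 (by positivity) (by positivity)
          _ = 1 := by
              rw [← Real.rpow_add (by norm_num), neg_add_cancel, Real.rpow_zero]
    have hub : ∀ s ∈ {s : ℝ | 0 ≤ s ∧ ∃ C : ℝ, 0 < C ∧ ∀ r : ℝ, 0 < r → r < 1 →
        ∀ x ∈ F, C * (r ^ θ / r) ^ s ≤ (covN r (closedBall x (r ^ θ) ∩ F) : ℝ)},
        s ≤ a / (1 - θ) := by
      intro s hs
      rw [memL] at hs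
      obtain ⟨-, C, hC, h⟩ := hs
      by_contra hlt
      rw [not_le, div_lt_iff₀ h1θ] at hlt
      refine no_bound (η := s * (1 - θ) - a) (M := (2 : ℝ) ^ K / C) (T := T) (by linarith)
        fun t hT ht => ?_
      obtain ⟨x, hx, hx2⟩ := hA t hT ht
      have h2 := (h t ht x hx).trans hx2
      have e1 : (s * (1 - θ) - a) * t = (1 - θ) * s * t - t * a := by ring
      rw [e1, Real.rpow_sub (by norm_num), div_le_iff₀ (by positivity), div_mul_eq_mul_div,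
        le_div_iff₀ hC, mul_comm]
      rw [Real.rpow_add (by norm_num)] at h2
      linarith
    exact le_antisymm (csSup_le ⟨_, hmem⟩ hub) (le_csSup ⟨_, hub⟩ hmem)
  rw [key]
  field_simp

end Pool.Agent.R165.Spec
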